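import Mathlib

set_option autoImplicit false

/-! Level sets of convex quadratic functions on the cube: symmetric chains. -/

namespace Pool.Agent.K6.H17.CL

open Finset

/-- the number of the subsets of the list which lead from the value `v` and the size `a` to the value `c`,
if the element `b` raises the value by `b + κ * size` -/
def N (κ c : ℤ) : List ℤ → ℤ → ℕ → ℕ
  | [], v, _ => if v = c then 1 else 0
  | b :: bs, v, a => N κ c bs v a + N κ c bs (v + b + κ * a) (a + 1)

/-- the number of the subsets which lead to the size `h` -/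
def M (h : ℕ) : ℕ → ℕ → ℕ
  | 0, a => if a = h then 1 else 0
  | d + 1, a => M h d a + M h d (a + 1)

theorem M_eq (h : ℕ) : ∀ d a : ℕ, M h d a = if a ≤ h then d.choose (h - a) else 0 := by
  intro d
  induction d with
  | zero =>
    intro a
    unfold M
    by_cases h1 : a = h
    · subst h1; simp
    · rw [if_neg h1]
      split_ifs with h2
      · have : h - a ≠ 0 := by omega
        obtain ⟨t, ht⟩ := Nat.exists_eq_succ_of_ne_zero this
        rw [ht]; simp
      · rfl
  | succ d ih =>
    intro a
    unfold M
    rw [ih, ih]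
    by_cases h1 : a + 1 ≤ h
    · rw [if_pos (by omega : a ≤ h), if_pos h1, if_pos (by omega : a ≤ h)]
      obtain ⟨t, ht⟩ : ∃ t, h - a = t + 1 := ⟨h - a - 1, by omega⟩
      have h2 : h - (a + 1) = t := by omega
      rw [ht, h2, Nat.choose_succ_succ]
      ring
    · rw [if_neg h1]
      by_cases h2 : a ≤ h
      · have : a = h := by omega
        subst this
        simp
      · rw [if_neg h2, if_neg h2]

/-- a strictly convex sequence takes no value three times -/
theorem no3 (V : ℕ → ℤ) (l : ℕ) (hV : ∀ r, r + 2 < l → V (r + 1) - V r < V (r + 2) - V (r + 1))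
    {r s t : ℕ} (h1 : r < s) (h2 : s < t) (h3 : t < l) (e1 : V r = V s) (e2 : V s = V t) : False := by
  have mono : ∀ d u, u + d + 1 < l → V (u + 1) - V u ≤ V (u + d + 1) - V (u + d) := by
    intro d
    induction d with
    | zero => intro u _; simp
    | succ d ih =>
      intro u hu
      have := ih u (by omega)
      have := hV (u + d) (by omega)
      have e : u + (d + 1) = u + d + 1 := rfl
      rw [e]
      linarith
  -- the last difference before `s` is nonnegative
  have low : ∀ d, r + d + 1 ≤ s → V (r + d + 1) - V r ≤ (d + 1) * (V s - V (s - 1)) := by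
    intro d
    induction d with
    | zero =>
      intro hd
      have := mono (s - 1 - r) r (by omega)
      have e : r + (s - 1 - r) = s - 1 := by omega
      rw [e, (by omega : s - 1 + 1 = s)] at this
      simpa using this
    | succ d ih =>
      intro hd
      have a1 := ih (by omega)
      have a2 := mono (s - 1 - (r + d + 1)) (r + d + 1) (by omega)
      have e : r + d + 1 + (s - 1 - (r + d + 1)) = s - 1 := by omega
      rw [e, (by omega : s - 1 + 1 = s)] at a2
      have e' : r + (d + 1) + 1 = r + d + 1 + 1 := rfl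
      rw [e']
      push_cast
      linarith
  have a1 := low (s - r - 1) (by omega)
  have e : r + (s - r - 1) + 1 = s := by omega
  rw [e, e1, sub_self] at a1
  have a2 : 0 ≤ V s - V (s - 1) := by
    by_contra hc
    push Not at hc
    have : ((s - r - 1 : ℕ) : ℤ) + 1 > 0 := by positivity
    nlinarith
  have a3 : V s - V (s - 1) < V (s + 1) - V s := by
    have := hV (s - 1) (by omega)
    have e1 : s - 1 + 1 = s := by omega
    have e2 : s - 1 + 2 = s + 1 := by omega
    rw [e1, e2] at this
    exact this
  have up : ∀ d, s + d + 1 ≤ t → 0 < V (s + d + 1) - V s := by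
    intro d
    induction d with
    | zero => intro _; show 0 < V (s + 1) - V s; linarith
    | succ d ih =>
      intro hd
      have b1 := ih (by omega)
      have b2 := mono (d + 1) s (by omega)
      have e' : s + (d + 1) + 1 = s + d + 1 + 1 := rfl
      have e'' : s + (d + 1) = s + d + 1 := rfl
      rw [e'] at b2 ⊢
      rw [e''] at b2
      linarith
  have := up (t - s - 1) (by omega)
  have e : s + (t - s - 1) + 1 = t := by omega
  rw [e, e2] at this
  omega

theorem two_le (V : ℕ → ℤ) (l : ℕ) (hV : ∀ r, r + 2 < l → V (r + 1) - V r < V (r + 2) - V (r + 1)) (c : ℤ) :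
    ∑ r ∈ range l, (if V r = c then 1 else 0 : ℕ) ≤ 2 := by
  rw [← Finset.card_filter]
  by_contra hc
  push Not at hc
  obtain ⟨x, y, z, hx, hy, hz, h1, h2, h3⟩ := Finset.two_lt_card_iff.1 hc
  rw [Finset.mem_filter, Finset.mem_range] at hx hy hz
  obtain ⟨x1, x2⟩ := hx
  obtain ⟨y1, y2⟩ := hy
  obtain ⟨z1, z2⟩ := hz
  rcases lt_or_gt_of_ne h1 with a | a <;> rcases lt_or_gt_of_ne h2 with b | b <;>
    rcases lt_or_gt_of_ne h3 with d | d
  · exact no3 V l hV a d z1 (by rw [x2, y2]) (by rw [y2, z2])
  · exact no3 V l hV b d y1 (by rw [x2, z2]) (by rw [y2, z2])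
  · omega
  · exact no3 V l hV b a y1 (by rw [x2, z2]) (by rw [y2, x2])
  · exact no3 V l hV a b z1 (by rw [x2, y2]) (by rw [x2, z2])
  · omega
  · exact no3 V l hV d b x1 (by rw [y2, z2]) (by rw [x2, z2])
  · exact no3 V l hV d a x1 (by rw [y2, z2]) (by rw [y2, x2])

/-- the symmetric chain argument -/
theorem chains (κ c : ℤ) (hκ : 0 < κ) (K : ℕ) : ∀ (bs : List ℤ), bs.Pairwise (· ≤ ·) →
    ∀ (V : ℕ → ℤ) (l a : ℕ), 2 * a + l + bs.length = K + 1 →
    (∀ r, r + 2 < l → V (r + 1) - V r < V (r + 2) - V (r + 1)) →
    (∀ r, r + 1 < l → ∀ b ∈ bs, V (r + 1) - V r ≤ b + κ * (a + r : ℕ)) →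
    ∑ r ∈ range l, N κ c bs (V r) (a + r) ≤ 2 * ∑ r ∈ range l, M (K / 2) bs.length (a + r) := by
  intro bs
  induction bs with
  | nil =>
    intro _ V l a hK hV _
    rcases Nat.eq_zero_or_pos l with rfl | hl
    · simp
    · have h1 : ∑ r ∈ range l, N κ c [] (V r) (a + r) ≤ 2 := two_le V l hV c
      have h2 : 1 ≤ ∑ r ∈ range l, M (K / 2) ([] : List ℤ).length (a + r) := by
        rw [List.length_nil] at hK ⊢
        have : M (K / 2) 0 (a + (K / 2 - a)) ≤ ∑ r ∈ range l, M (K / 2) 0 (a + r) :=
          Finset.single_le_sum (f := fun r => M (K / 2) 0 (a + r)) (fun _ _ => Nat.zero_le _)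
            (Finset.mem_range.2 (by omega))
        have e : a + (K / 2 - a) = K / 2 := by omega
        rw [e] at this
        have e2 : M (K / 2) 0 (K / 2) = 1 := if_pos rfl
        omega
      omega
  | cons b bs ih =>
    intro hs V l a hK hV hB
    rw [List.pairwise_cons] at hs
    obtain ⟨hs1, hs2⟩ := hs
    rw [List.length_cons] at hK ⊢
    rcases Nat.eq_zero_or_pos l with rfl | hl
    · simp
    -- the first new chain
    set V1 : ℕ → ℤ := fun r => if r < l then V r else V (l - 1) + b + κ * (a + (l - 1) : ℕ) with hV1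
    set V2 : ℕ → ℤ := fun r => V r + b + κ * (a + r : ℕ) with hV2
    have i1 := ih hs2 V1 (l + 1) a (by omega)
      (by
        intro r hr
        by_cases h2 : r + 2 < l
        · simp only [hV1]
          rw [if_pos (by omega), if_pos (by omega), if_pos h2]
          exact hV r h2
        · have e2 : r + 2 = l := by omega
          simp only [hV1]
          rw [if_pos (by omega), if_pos (by omega), if_neg h2]
          have e1 : l - 1 = r + 1 := by omega
          rw [e1]
          have := hB r (by omega) b List.mem_cons_self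
          push_cast at this ⊢
          linarith)
      (by
        intro r hr b' hb'
        by_cases h2 : r + 1 < l
        · simp only [hV1]
          rw [if_pos h2, if_pos (by omega : r < l)]
          exact hB r h2 b' (List.mem_cons_of_mem _ hb')
        · simp only [hV1]
          rw [if_neg h2, if_pos (by omega : r < l)]
          have e1 : l - 1 = r := by omega
          rw [e1]
          have := hs1 b' hb'
          linarith)
    have i2 := ih hs2 V2 (l - 1) (a + 1) (by omega)
      (by
        intro r hr
        have := hV r (by omega)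
        simp only [hV2]
        push_cast
        linarith)
      (by
        intro r hr b' hb'
        have := hB r (by omega) b' (List.mem_cons_of_mem _ hb')
        simp only [hV2]
        push_cast at this ⊢
        linarith)
    obtain ⟨l', rfl⟩ : ∃ l', l = l' + 1 := ⟨l - 1, by omega⟩
    simp only [Nat.add_sub_cancel] at i1 i2 hV1
    -- the sums
    have s1 : ∑ r ∈ range (l' + 1), N κ c (b :: bs) (V r) (a + r) =
        ∑ r ∈ range (l' + 1 + 1), N κ c bs (V1 r) (a + r) + ∑ r ∈ range l', N κ c bs (V2 r) (a + 1 + r) := by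
      have e0 : ∀ r, N κ c (b :: bs) (V r) (a + r) = N κ c bs (V r) (a + r) + N κ c bs (V2 r) (a + 1 + r) := by
        intro r
        have : a + 1 + r = a + r + 1 := by ring
        rw [this]
        rfl
      rw [Finset.sum_congr rfl (fun r _ => e0 r), Finset.sum_add_distrib,
        Finset.sum_range_succ (fun r => N κ c bs (V2 r) (a + 1 + r)) l',
        Finset.sum_range_succ (fun r => N κ c bs (V1 r) (a + r)) (l' + 1)]
      have e1 : ∑ r ∈ range (l' + 1), N κ c bs (V1 r) (a + r) = ∑ r ∈ range (l' + 1), N κ c bs (V r) (a + r) := by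
        refine Finset.sum_congr rfl fun r hr => ?_
        rw [Finset.mem_range] at hr
        simp only [hV1]
        rw [if_pos hr]
      have e2 : N κ c bs (V1 (l' + 1)) (a + (l' + 1)) = N κ c bs (V2 l') (a + 1 + l') := by
        have e3 : V1 (l' + 1) = V2 l' := by
          simp only [hV1, hV2]
          rw [if_neg (by omega)]
        rw [e3]
        congr 1
        ring
      rw [e1, e2]
      ring
    have s2 : ∑ r ∈ range (l' + 1), M (K / 2) (bs.length + 1) (a + r) =
        ∑ r ∈ range (l' + 1 + 1), M (K / 2) bs.length (a + r) +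
          ∑ r ∈ range l', M (K / 2) bs.length (a + 1 + r) := by
      have e0 : ∀ r, M (K / 2) (bs.length + 1) (a + r) =
          M (K / 2) bs.length (a + r) + M (K / 2) bs.length (a + 1 + r) := by
        intro r
        have : a + 1 + r = a + r + 1 := by ring
        rw [this]
        rfl
      rw [Finset.sum_congr rfl (fun r _ => e0 r), Finset.sum_add_distrib,
        Finset.sum_range_succ (fun r => M (K / 2) bs.length (a + 1 + r)) l',
        Finset.sum_range_succ (fun r => M (K / 2) bs.length (a + r)) (l' + 1)]
      have e2 : M (K / 2) bs.length (a + (l' + 1)) = M (K / 2) bs.length (a + 1 + l') := by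
        congr 1
        ring
      rw [e2]
      ring
    rw [s1, s2, mul_add]
    exact Nat.add_le_add i1 i2

/-- at most `2 * k.choose (k / 2)` subsets of a list of length `k` lead to a given value -/
theorem N_le (κ c : ℤ) (hκ : 0 < κ) (bs : List ℤ) (hs : bs.Pairwise (· ≤ ·)) (v : ℤ) :
    N κ c bs v 0 ≤ 2 * bs.length.choose (bs.length / 2) := by
  have h := chains κ c hκ bs.length bs hs (fun _ => v) 1 0 (by omega) (by intro r hr; omega)
    (by intro r hr; omega)
  rw [Finset.sum_range_one, Finset.sum_range_one, M_eq, if_pos (by omega)] at h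
  simpa using h

/-- the central binomial coefficients -/
theorem central (j : ℕ) : (3 * j + 1) * Nat.centralBinom j ^ 2 ≤ 16 ^ j := by
  induction j with
  | zero => simp
  | succ j ih =>
    have h := Nat.succ_mul_centralBinom_succ j
    have h1 : (j + 1) ^ 2 * ((3 * (j + 1) + 1) * Nat.centralBinom (j + 1) ^ 2) =
        (3 * j + 4) * (2 * (2 * j + 1) * Nat.centralBinom j) ^ 2 := by
      rw [← h]; ring
    have h2 : (2 * j + 1) ^ 2 * (3 * j + 4) ≤ 4 * (j + 1) ^ 2 * (3 * j + 1) := by nlinarith
    have h3 : (j + 1) ^ 2 * ((3 * (j + 1) + 1) * Nat.centralBinom (j + 1) ^ 2) ≤ (j + 1) ^ 2 * 16 ^ (j + 1) := by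
      rw [h1]
      calc (3 * j + 4) * (2 * (2 * j + 1) * Nat.centralBinom j) ^ 2
          = 4 * ((2 * j + 1) ^ 2 * (3 * j + 4)) * Nat.centralBinom j ^ 2 := by ring
        _ ≤ 4 * (4 * (j + 1) ^ 2 * (3 * j + 1)) * Nat.centralBinom j ^ 2 :=
            Nat.mul_le_mul_right _ (Nat.mul_le_mul_left _ h2)
        _ = 16 * (j + 1) ^ 2 * ((3 * j + 1) * Nat.centralBinom j ^ 2) := by ring
        _ ≤ 16 * (j + 1) ^ 2 * 16 ^ j := Nat.mul_le_mul_left _ ih
        _ = (j + 1) ^ 2 * 16 ^ (j + 1) := by ring
    exact Nat.le_of_mul_le_mul_left h3 (by positivity)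

theorem choose_half (k : ℕ) : 3 * k * k.choose (k / 2) ^ 2 ≤ 2 * 4 ^ k := by
  rcases Nat.even_or_odd k with ⟨j, hj⟩ | ⟨j, hj⟩
  · have e : k = 2 * j := by omega
    subst e
    have h := central j
    rw [Nat.centralBinom] at h
    have e1 : 2 * j / 2 = j := by omega
    rw [e1]
    have e2 : (4 : ℕ) ^ (2 * j) = 16 ^ j := by rw [pow_mul]; norm_num
    rw [e2]
    nlinarith [Nat.zero_le ((2 * j).choose j ^ 2)]
  · subst hj
    have h := central (j + 1)
    have e1 : (2 * j + 1) / 2 = j := by omega
    rw [e1]
    have e2 : Nat.centralBinom (j + 1) = 2 * (2 * j + 1).choose j := by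
      rw [Nat.centralBinom, (by ring : 2 * (j + 1) = (2 * j + 1) + 1), Nat.choose_succ_succ,
        Nat.choose_symm_half]
      ring
    rw [e2] at h
    have e3 : (16 : ℕ) ^ (j + 1) = 4 * 4 ^ (2 * j + 1) := by
      rw [pow_succ, pow_succ, pow_mul]; norm_num; ring
    rw [e3] at h
    nlinarith [Nat.zero_le ((2 * j + 1).choose j ^ 2)]

end Pool.Agent.K6.H17.CL
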