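import Pool.Agent.Y463.BS.Last
import Pool.Agent.R811.VS.Choices

set_option autoImplicit false

/-! The second differences of the invariant of order two at interlaced double points are all equal. -/

namespace Pool.Agent.K6.H17.CL

open Finset LaurentPolynomial Pool.Agent.H891R2.Jones Pool.Agent.H832R3.VJ
open Pool.Agent.R811.Cross
open Pool.Agent.H953R3.Q2 (T_mul0 T_mul1 T_mul2 mul0 mul1 mul2)
open Pool.Agent.Y463.BS (E v X Two al pts cor W_eq m_bracket sign_parity knot_moments count_starts
  count_pts_append)
open Pool.Agent.H832R3.VJ.V7 (moment_term moment_C_mul)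

/-- the value at `1` of the normalised bracket of a diagram with one component -/
theorem m0_conn {P : Type} [Finite P] [DecidableEq P] [Nonempty P] (D : Diagram P)
    (h2 : Two (al D.arcs D.crossings)) (hc : ∀ p q, E (X D.crossings ++ D.arcs) p q) :
    moment 0 D.fPoly = 1 := by
  have h1 : Pool.Agent.Y463.BS.lp (X D.crossings ++ D.arcs) = 1 := by
    unfold Pool.Agent.Y463.BS.lp
    rw [Nat.card_eq_one_iff_unique]
    refine ⟨⟨fun a b => ?_⟩, ⟨Quot.mk _ (Classical.arbitrary P)⟩⟩
    induction a using Quot.ind
    induction b using Quot.ind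
    exact Quot.sound (hc _ _)
  obtain ⟨b0, _⟩ := m_bracket D
  rw [W_eq _ _ h2] at b0
  unfold v at b0
  rw [h1, pow_one] at b0
  obtain ⟨t, ht⟩ := sign_parity D.crossings
  have hw : D.writhe = 2 * t + D.crossings.length := by
    unfold Diagram.writhe
    linarith
  set ε : ℤ := (-1) ^ D.crossings.length with hε
  have c0 : moment 0 D.bracket = ε := by linarith
  have hf : D.fPoly = C ε * (T (-3 * D.writhe) * D.bracket) := by
    unfold Diagram.fPoly
    by_cases he : Even D.writhe
    · have he' : Even D.crossings.length := by
        obtain ⟨r, hr⟩ := he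
        rw [← Int.even_coe_nat]
        exact ⟨r - t, by linarith⟩
      rw [if_pos he, hε, he'.neg_one_pow, map_one, one_mul, one_mul]
    · have he' : Odd D.crossings.length := by
        by_contra hno
        rw [Nat.not_odd_iff_even] at hno
        obtain ⟨r, hr⟩ := hno
        exact he ⟨t + r, by rw [hw, hr]; push_cast; ring⟩
      rw [if_neg he, hε, he'.neg_one_pow, map_neg, map_one]
      ring
  have hee : ε * ε = 1 := by
    rw [hε, ← pow_add, ← two_mul, pow_mul]
    norm_num
  rw [hf, moment_C_mul, T_mul0, c0, hee]

/-- a diagram with exactly two fitting colourings has one component -/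
theorem conn_of_unique {P : Type} (arcs : List (P × P)) (cr : List (Crossing P)) (c : P → Fin 2)
    (h0 : Fits c arcs cr) (h1 : ∀ d, Fits d arcs cr → d = c ∨ d = (fun x => 1 - x) ∘ c) (p q : P) :
    E (X cr ++ arcs) p q := by
  classical
  by_contra hne
  set d : P → Fin 2 := fun z => if E (X cr ++ arcs) p z then c z else 1 - c z with hd'
  have key : ∀ u w, (u, w) ∈ X cr ++ arcs → (E (X cr ++ arcs) p u ↔ E (X cr ++ arcs) p w) := by
    intro u w huw
    have := E.of_mem huw
    exact ⟨fun h => h.trans this, fun h => h.trans this.symm⟩
  have hd : Fits d arcs cr := by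
    refine ⟨fun x hx => ?_, fun x hx => ⟨?_, ?_⟩⟩
    · have h2 := key x.1 x.2 (List.mem_append_right _ hx)
      simp only [hd']
      by_cases h3 : E (X cr ++ arcs) p x.1
      · rw [if_pos h3, if_pos (h2.1 h3), h0.1 x hx]
      · rw [if_neg h3, if_neg (fun h => h3 (h2.2 h)), h0.1 x hx]
    · have h2 := key x.a x.c (List.mem_append_left _ (List.mem_flatMap.2 ⟨x, hx, by simp⟩))
      have h4 := (h0.2 x hx).1
      simp only [hd']
      by_cases h3 : E (X cr ++ arcs) p x.a
      · rw [if_pos h3, if_pos (h2.1 h3)]; exact h4
      · rw [if_neg h3, if_neg (fun h => h3 (h2.2 h))]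
        intro h5
        exact h4 (sub_right_injective h5)
    · have h2 := key x.b x.d (List.mem_append_left _ (List.mem_flatMap.2 ⟨x, hx, by simp⟩))
      have h4 := (h0.2 x hx).2
      simp only [hd']
      by_cases h3 : E (X cr ++ arcs) p x.b
      · rw [if_pos h3, if_pos (h2.1 h3)]; exact h4
      · rw [if_neg h3, if_neg (fun h => h3 (h2.2 h))]
        intro h5
        exact h4 (sub_right_injective h5)
  rcases h1 d hd with h | h
  · have h2 := congrFun h q
    simp only [hd'] at h2
    rw [if_neg hne] at h2
    revert h2
    generalize c q = z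
    revert z
    decide
  · have h2 := congrFun h p
    simp only [hd', Function.comp_apply] at h2
    rw [if_pos (E.refl _ _)] at h2
    revert h2
    generalize c p = z
    revert z
    decide

variable {n : ℕ} (G : Shadow n)

theorem two_diagram (s : Fin n → Bool) : Two (al (G.diagram s).arcs (G.diagram s).crossings) := by
  intro p
  right
  have h3 := isClosed G s p
  obtain ⟨g1, g2, g3⟩ := count_starts (G.diagram s).crossings p
  unfold Diagram.starts Diagram.ends at h3
  simp only [List.count_append] at h3
  simp only [al, pts, List.count_append]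
  omega

theorem knot_diagram [Nonempty (Fin (2 * n))] (s : Fin n → Bool) :
    moment 0 (G.diagram s).fPoly = 1 ∧ moment 1 (G.diagram s).fPoly = 0 := by
  apply knot_moments
  refine ⟨isClosed G s, ?_⟩
  rw [Nat.card_eq_one_iff_unique]
  refine ⟨⟨fun a b => ?_⟩, ⟨Quot.mk _ (Classical.arbitrary _)⟩⟩
  induction a using Quot.ind
  induction b using Quot.ind
  exact Quot.eqvGen_sound (isKnot G s _ _)

theorem cor_count {P : Type} [DecidableEq P] (x : Crossing P) (p : P) :
    (pts (sm x)).count p = (cor x).count p ∧ (cor (positive x)).count p = (cor x).count p ∧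
      (cor (negative x)).count p = (cor x).count p := by
  unfold sm pts cor positive negative
  by_cases h : x.sign = 1
  · rw [if_pos h, if_pos h]
    unfold switch
    simp only [List.map_cons, List.map_nil, List.cons_append, List.nil_append, List.count_cons,
      List.count_nil]
    refine ⟨?_, ?_, ?_⟩ <;> first | trivial | ring
  · rw [if_neg h, if_neg h]
    unfold switch
    simp only [List.map_cons, List.map_nil, List.cons_append, List.nil_append, List.count_cons,
      List.count_nil]
    refine ⟨?_, ?_, ?_⟩ <;> first | trivial | ring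

theorem two_smooth {i j : Fin n} (hij : i ≠ j) (s : Fin n → Bool) :
    Two (al (sm (G.crossing j) ++ (sm (G.crossing i) ++ [])) (rest G [i, j] s)) := by
  have hperm : ((List.finRange n).map (fun k => G.choice k (s k))).Perm
      ([i, j].map (fun k => G.choice k (s k)) ++ rest G [i, j] s) := by
    unfold rest
    rw [← List.map_append]
    apply List.Perm.map
    rw [List.perm_ext_iff_of_nodup (List.nodup_finRange n)]
    · intro a
      simp only [List.mem_finRange, List.mem_append, List.mem_filter, true_and, decide_eq_true_eq, true_iff]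
      tauto
    · apply List.Nodup.append (by simp [hij]) ((List.nodup_finRange n).filter _)
      intro a ha hb
      have := (List.mem_filter.1 hb).2
      simp only [decide_eq_true_eq] at this
      exact this ha
  refine (two_diagram G s).congr fun p => ?_
  have h1 := (hperm.flatMap_right cor).count_eq p
  have h2 : (al (G.diagram s).arcs (G.diagram s).crossings).count p =
      (((List.finRange n).map (fun k => G.choice k (s k))).flatMap cor).count p := by
    unfold al Shadow.diagram
    simp [pts]
  rw [h2, h1]
  have hc : ∀ k, (cor (G.choice k (s k))).count p = (pts (sm (G.crossing k))).count p := by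
    intro k
    obtain ⟨a1, a2, a3⟩ := cor_count (G.crossing k) p
    unfold Shadow.choice
    split_ifs
    · rw [a2, a1]
    · rw [a3, a1]
  have h3 : (al (sm (G.crossing j) ++ (sm (G.crossing i) ++ [])) (rest G [i, j] s)).count p =
      (pts (sm (G.crossing j))).count p + (pts (sm (G.crossing i))).count p +
        ((rest G [i, j] s).flatMap cor).count p := by
    unfold al
    rw [List.count_append, count_pts_append, List.append_nil]
  rw [h3]
  simp only [List.map_cons, List.map_nil, List.cons_append, List.nil_append, List.flatMap_cons,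
    List.count_append]
  rw [hc, hc]
  ring

/-- the value at `1` of the polynomial of the diagram with two interlaced crossings smoothed -/
theorem m0_smooth {i j : Fin n} (h : G.Interlaced i j) (s : Fin n → Bool) :
    moment 0 (⟨sm (G.crossing j) ++ (sm (G.crossing i) ++ []), rest G [i, j] s⟩ :
      Diagram (Fin (2 * n))).fPoly = 1 := by
  have hij := ne_of_interlaced G h
  have : Nonempty (Fin (2 * n)) := ⟨G.p i⟩
  obtain ⟨c, hc, hu⟩ := exists_V (G.p i) (G.q i) (G.p j) (G.q j) (p_ne G hij) (pq_ne G _ _)
    (pq_ne G _ _).symm (q_ne G hij) h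
  exact m0_conn _ (two_smooth G hij s)
    (conn_of_unique _ _ c ((fits_iff G i j s c).2 hc) (fun d hd => hu d ((fits_iff G i j s d).1 hd)))

/-- **The second differences at interlaced double points.** -/
theorem D2_exact {i j : Fin n} (h : G.Interlaced i j) (s : Fin n → Bool) :
    D j (D i (F G)) s = -96 := by
  have hij := ne_of_interlaced G h
  have : Nonempty (Fin (2 * n)) := ⟨G.p i⟩
  have h0 := congrArg (moment 2) (skein2 [] (G.crossing i) (G.crossing j) (rest G [i, j] s))
  rw [moment_add, m_sub, m_sub, T_mul2, T_mul2, mul2] at h0
  have z0 : moment 0 ((T (-2) - T 2 : ℤ[T;T⁻¹]) ^ 2) = 0 := by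
    rw [pow_two, mul0, m_sub, m_T, m_T]; norm_num
  have z1 : moment 1 ((T (-2) - T 2 : ℤ[T;T⁻¹]) ^ 2) = 0 := by
    rw [pow_two, mul1, m_sub, m_sub, m_T, m_T, m_T, m_T]; norm_num
  have z2 : moment 2 ((T (-2) - T 2 : ℤ[T;T⁻¹]) ^ 2) = 32 := by
    rw [pow_two, mul2, m_sub, m_sub, m_sub, m_T, m_T, m_T, m_T, m_T, m_T]; norm_num
  rw [z0, z1, z2, m0_smooth G h s] at h0
  have e : ∀ a b : Bool, (⟨[], (if a then positive (G.crossing i) else negative (G.crossing i)) ::
        (if b then positive (G.crossing j) else negative (G.crossing j)) :: rest G [i, j] s⟩ :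
      Diagram (Fin (2 * n))).fPoly = (G.diagram (Function.update (Function.update s j b) i a)).fPoly := by
    intro a b
    rw [diagram_eq G [i, j] (by simp [hij])]
    rw [rest_congr G [i, j] (Function.update (Function.update s j b) i a) s]
    · simp [hij.symm, Shadow.choice]
    · intro k hk
      simp only [List.mem_cons, List.not_mem_nil, or_false, not_or] at hk
      simp [hk.1, hk.2]
  have e1 := e true true
  have e2 := e true false
  have e3 := e false true
  have e4 := e false false
  simp only [if_true, if_false, Bool.false_eq_true] at e1 e2 e3 e4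
  rw [e1, e2, e3, e4] at h0
  obtain ⟨a1, a2⟩ := knot_diagram G (Function.update (Function.update s j true) i true)
  obtain ⟨b1, b2⟩ := knot_diagram G (Function.update (Function.update s j false) i false)
  rw [a1, a2, b1, b2] at h0
  unfold D F
  linarith

end Pool.Agent.K6.H17.CL
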