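import Pool.Agent.K6.H17.CL.WordD2
import Pool.Agent.K6.H17.CL.Exact
import Pool.Agent.W705.JR.Vas
import Pool.Agent.H832R3.VJ.Fin

set_option autoImplicit false

/-! Counting. -/

namespace Pool.Agent.K6.H17.CL

open Finset LaurentPolynomial Pool.Agent.H891R2.Jones Pool.Agent.H832R3.VJ Pool.Agent.W639.RB
open Pool.Agent.W705.JR (dia)
open Pool.Agent.R811.Cross (D D_comm)

variable {m n : ℕ}

/-! ### shadows -/

open Classical in
theorem shadow_clique (G : Pool.Agent.R811.Cross.Shadow n) (C : Finset (Fin n))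
    (hC : ∀ i ∈ C, ∀ j ∈ C, i ≠ j → G.Interlaced i j) (X : Dia) :
    #{s : Fin n → Bool | ¬ Separated 2 (Pool.Agent.R811.VS.dia G s) X} ≤
      2 * (#C).choose (#C / 2) * 2 ^ (n - #C) := by
  have h1 := level (Pool.Agent.R811.Cross.F G) (moment 2 X.D.fPoly) (-96) (by norm_num) C
    (fun i hi j hj hij s => D2_exact G (hC j hj i hi (Ne.symm hij)) s)
  rw [Fintype.card_fin] at h1
  refine le_trans (Finset.card_le_card fun s hs => ?_) h1
  rw [Finset.mem_filter] at hs ⊢
  exact ⟨hs.1, Pool.Agent.R811.VS.F_of_not_separated G s X hs.2⟩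

/-! ### words -/

theorem toL_word (i : Fin n → Fin (m - 1)) (s : Fin n → Bool) : toL (word i s) = lst i s := rfl

theorem permL_lst (i : Fin n → Fin (m - 1)) (s : Fin n → Bool) : permL m (lst i s) = pre i n := by
  rw [pre_eq i s, List.take_of_length_le]
  unfold lst; simp

theorem permL_toL (w : Fin n → Letter m) : permL m (toL w) = perm w := by
  unfold permL toL perm
  rw [List.map_ofFn]
  congr 1
  congr 1
  funext i
  have h : ((w i).2 : ℕ) + 1 < m := by have := (w i).2.2; omega
  show sw m (w i).2 = _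
  unfold sw
  rw [dif_pos h]

theorem moment_of_not_separated (O : Outer m) (w : Fin n → Letter m) (X : Dia)
    (h : ¬ Separated 2 (dia O w) X) : moment 2 (diagram O w).fPoly = moment 2 X.D.fPoly := by
  by_contra hne
  exact h ⟨2, le_rfl, fun X => moment 2 X.D.fPoly, isVassiliev_moment 2, hne⟩

theorem exists_M (O : Outer m) (hm : 0 < m) (π : Equiv.Perm (Fin m)) :
    ∃ (M : ℤ) (a : ℕ), -2 * M = (-2) ^ comps O π ∧ -2 * M = (-2) ^ a := by
  have hpos : 0 < comps O π := by
    unfold comps
    have : Nonempty (Quot (through O π)) := ⟨Quot.mk _ (O.lower ⟨0, hm⟩)⟩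
    have : Finite (Quot (through O π)) := Quot.finite _
    exact Nat.card_pos
  obtain ⟨t, ht⟩ := Nat.exists_eq_succ_of_ne_zero hpos.ne'
  refine ⟨(-2) ^ t, comps O π, ?_, ?_⟩ <;> rw [ht, pow_succ'] 

/-- the closedness of the diagrams depends on the places only -/
theorem all_closed (O : Outer m) (i : Fin n → Fin (m - 1)) (s₀ : Fin n → Bool)
    (hc : (diagram O (word i s₀)).IsClosed) (s : Fin n → Bool) : (diagram O (word i s)).IsClosed :=
  closed_of_closed O (lst i s₀) (lst i s) hc (by rw [permL_lst, permL_lst])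

/-- the second differences for two letters which cross the same strands -/
theorem class_D2 (O : Outer m) (i : Fin n → Fin (m - 1)) (s₀ : Fin n → Bool)
    (hc : (diagram O (word i s₀)).IsClosed) (a b : Fin m) (hab : O.up a = O.up b) :
    ∃ κ : ℤ, κ ≠ 0 ∧ ∀ j ∈ crossings i a b, ∀ k ∈ crossings i a b, j ≠ k → ∀ s,
      D j (D k (fun s => moment 2 (draw O (lst i s)).close.fPoly)) s = κ := by
  have key : ∀ j ∈ crossings i a b, strands i j = s(a, b) ∧ O.up (sl i j) = O.up (sr i j) := by
    intro j hj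
    unfold crossings at hj
    rw [Finset.mem_filter] at hj
    unfold strands
    rcases hj.2 with ⟨h1, h2⟩ | ⟨h1, h2⟩
    · rw [h1, h2]; exact ⟨rfl, hab⟩
    · rw [h1, h2]; exact ⟨Sym2.eq_swap, hab.symm⟩
  rcases (crossings i a b).eq_empty_or_nonempty with he | ⟨j0, hj0⟩
  · exact ⟨1, one_ne_zero, fun j hj => by rw [he] at hj; simp at hj⟩
  have hm : 0 < m := by have := (i j0).2; omega
  obtain ⟨M, c, hM, hMc⟩ := exists_M O hm (pre i n)
  obtain ⟨M', c', hM', hMc'⟩ := exists_M O hm (pre i j0 * sw m (i j0) * (pre i j0)⁻¹ * pre i n)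
  refine ⟨160 * M + 128 * M', kappa_ne M M' c c' hMc hMc', ?_⟩
  have lt_case : ∀ j ∈ crossings i a b, ∀ k ∈ crossings i a b, j < k → ∀ s,
      D k (D j (fun s => moment 2 (draw O (lst i s)).close.fPoly)) s = 160 * M + 128 * M' := by
    intro j hj k hk hjk s
    refine word_D2 O i s₀ hc M M' hjk (key j hj).2 ((key j hj).1.trans (key k hk).1.symm) hM ?_ s
    rw [hM', conj_eq i ((key j hj).1.trans (key j0 hj0).1.symm)]
  intro j hj k hk hjk s
  rcases lt_or_gt_of_ne hjk with h | h
  · rw [D_comm hjk]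
    exact lt_case j hj k hk h s
  · exact lt_case k hk j hj h s

open Classical in
theorem word_clique (O : Outer m) (i : Fin n → Fin (m - 1)) (s₀ : Fin n → Bool)
    (hc : (diagram O (word i s₀)).IsClosed) (a b : Fin m) (hab : O.up a = O.up b) (X : Dia) :
    #{s : Fin n → Bool | ¬ Separated 2 (dia O (word i s)) X} ≤
      2 * (#(crossings i a b)).choose (#(crossings i a b) / 2) * 2 ^ (n - #(crossings i a b)) := by
  obtain ⟨κ, hκ, hF⟩ := class_D2 O i s₀ hc a b hab
  have h1 := level (fun s => moment 2 (draw O (lst i s)).close.fPoly) (moment 2 X.D.fPoly) κ hκ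
    (crossings i a b) hF
  rw [Fintype.card_fin] at h1
  refine le_trans (Finset.card_le_card fun s hs => ?_) h1
  rw [Finset.mem_filter] at hs ⊢
  exact ⟨hs.1, moment_of_not_separated O (word i s) X hs.2⟩

theorem strands_ne (i : Fin n → Fin (m - 1)) (j : Fin n) : sl i j ≠ sr i j := by
  unfold sl sr
  intro h
  have := (pre i j).injective h
  have := congrArg Fin.val this
  simp at this

theorem pigeon (O : Outer m) (i : Fin n → Fin (m - 1)) (hn : 0 < #(parallel O i)) :
    ∃ a b, O.up a = O.up b ∧ #(parallel O i) ≤ m.choose 2 * #(crossings i a b) := by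
  classical
  by_contra hcon
  push Not at hcon
  set T : Finset (Sym2 (Fin m)) := univ.filter fun y => ¬ y.IsDiag with hT
  have hcard : #T = m.choose 2 := by
    rw [hT, ← Fintype.card_subtype, Sym2.card_subtype_not_diag, Fintype.card_fin]
  have hmaps : ∀ j ∈ parallel O i, strands i j ∈ T := by
    intro j _
    rw [hT, Finset.mem_filter]
    refine ⟨Finset.mem_univ _, ?_⟩
    unfold strands
    rw [Sym2.mk_isDiag_iff]
    exact strands_ne i j
  have h1 : #(parallel O i) = ∑ y ∈ T, #{j ∈ parallel O i | strands i j = y} :=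
    Finset.card_eq_sum_card_fiberwise hmaps
  obtain ⟨j0, hj0⟩ := Finset.card_pos.1 hn
  have h2 : T.Nonempty := ⟨_, hmaps j0 hj0⟩
  have h4 : ∀ y ∈ T, m.choose 2 * #{j ∈ parallel O i | strands i j = y} < #(parallel O i) := by
    intro y hy
    rcases ({j ∈ parallel O i | strands i j = y} : Finset (Fin n)).eq_empty_or_nonempty with he | ⟨j, hj⟩
    · rw [he, Finset.card_empty, mul_zero]; exact hn
    · rw [Finset.mem_filter] at hj
      have hp := hj.1
      unfold parallel at hp
      rw [Finset.mem_filter] at hp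
      refine lt_of_le_of_lt (Nat.mul_le_mul_left _ (Finset.card_le_card ?_)) (hcon (sl i j) (sr i j) hp.2)
      intro k hk
      rw [Finset.mem_filter] at hk
      have h5 := hk.2.trans hj.2.symm
      unfold strands at h5
      rw [Sym2.eq_iff] at h5
      unfold crossings
      rw [Finset.mem_filter]
      exact ⟨Finset.mem_univ _, h5⟩
  have h3 : ∑ y ∈ T, m.choose 2 * #{j ∈ parallel O i | strands i j = y} < ∑ _y ∈ T, #(parallel O i) :=
    Finset.sum_lt_sum_of_nonempty h2 h4
  rw [← Finset.mul_sum, ← h1, Finset.sum_const, smul_eq_mul, hcard] at h3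
  exact lt_irrefl _ h3

theorem choose_two (m : ℕ) : m.choose 2 * 2 = m * (m - 1) := by
  rw [Nat.choose_two_right, Nat.div_mul_cancel (Nat.even_mul_pred_self m).two_dvd]

theorem num_bound {k n N : ℕ} (hk : k ≤ n) (h : N ≤ 2 * k.choose (k / 2) * 2 ^ (n - k)) :
    3 * k * N ^ 2 ≤ 8 * 4 ^ n := by
  have h1 := choose_half k
  have h2 : (4 : ℕ) ^ n = 4 ^ k * 4 ^ (n - k) := by rw [← pow_add]; congr 1; omega
  have h3 : (2 ^ (n - k)) ^ 2 = (4 : ℕ) ^ (n - k) := by rw [← pow_mul, mul_comm, pow_mul]; norm_num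
  calc 3 * k * N ^ 2 ≤ 3 * k * (2 * k.choose (k / 2) * 2 ^ (n - k)) ^ 2 :=
        Nat.mul_le_mul_left _ (Nat.pow_le_pow_left h 2)
    _ = 4 * (3 * k * k.choose (k / 2) ^ 2) * (2 ^ (n - k)) ^ 2 := by ring
    _ ≤ 4 * (2 * 4 ^ k) * (2 ^ (n - k)) ^ 2 := Nat.mul_le_mul_right _ (Nat.mul_le_mul_left _ h1)
    _ = 8 * 4 ^ n := by rw [h3, h2]; ring

open Classical in
theorem word_bound (O : Outer m) (i : Fin n → Fin (m - 1)) (s₀ : Fin n → Bool)
    (hc : (diagram O (word i s₀)).IsClosed) (X : Dia) :
    3 * #(parallel O i) * #{s : Fin n → Bool | ¬ Separated 2 (dia O (word i s)) X} ^ 2 ≤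
      4 * (m * (m - 1)) * 4 ^ n := by
  rcases Nat.eq_zero_or_pos (#(parallel O i)) with h0 | hn
  · rw [h0]; simp
  obtain ⟨a, b, hab, hy⟩ := pigeon O i hn
  have h1 := word_clique O i s₀ hc a b hab X
  set N := #{s : Fin n → Bool | ¬ Separated 2 (dia O (word i s)) X}
  set k := #(crossings i a b)
  have hk : k ≤ n := (Finset.card_le_univ _).trans (by simp)
  have h2 := num_bound hk h1
  calc 3 * #(parallel O i) * N ^ 2 ≤ 3 * (m.choose 2 * k) * N ^ 2 :=
        Nat.mul_le_mul_right _ (Nat.mul_le_mul_left _ hy)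
    _ = m.choose 2 * (3 * k * N ^ 2) := by ring
    _ ≤ m.choose 2 * (8 * 4 ^ n) := Nat.mul_le_mul_left _ h2
    _ = 4 * (m.choose 2 * 2) * 4 ^ n := by ring
    _ = 4 * (m * (m - 1)) * 4 ^ n := by rw [choose_two]

open Classical in
/-- random signs with arbitrary distributions -/
theorem word_prod (O : Outer m) (i : Fin n → Fin (m - 1)) (s₀ : Fin n → Bool)
    (hc : (diagram O (word i s₀)).IsClosed) (X : Dia) (p : Fin n → Bool → ℝ) (ε : ℝ) (h0 : 0 ≤ ε)
    (hp : ∀ j b, ε ≤ p j b) (hs : ∀ j, p j false + p j true = 1) :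
    3 * ((m * (m - 1) : ℕ) + 2 * ε * #(parallel O i)) *
      (∑ s : Fin n → Bool, (∏ j, p j (s j)) * (if ¬ Separated 2 (dia O (word i s)) X then 1 else 0)) ^ 2 ≤
      16 * (m * (m - 1) : ℕ) := by
  set P : ℝ := ∑ s : Fin n → Bool, (∏ j, p j (s j)) *
    (if ¬ Separated 2 (dia O (word i s)) X then 1 else 0) with hP
  have hp0 : ∀ j b, 0 ≤ p j b := fun j b => h0.trans (hp j b)
  have hP0 : 0 ≤ P := by
    refine Finset.sum_nonneg fun x _ => mul_nonneg (Finset.prod_nonneg fun j _ => hp0 j _) ?_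
    split_ifs <;> norm_num
  have main : ∀ a b, O.up a = O.up b → 3 * (1 + ε * #(crossings i a b)) * P ^ 2 ≤ 16 := by
    intro a b hab
    obtain ⟨κ, hκ, hF⟩ := class_D2 O i s₀ hc a b hab
    have h1 := level_prod (fun s => moment 2 (draw O (lst i s)).close.fPoly) (moment 2 X.D.fPoly) κ hκ
      (crossings i a b) hF p ε h0 hp0 (fun j _ => hp j) hs
    refine le_trans (mul_le_mul_of_nonneg_left (pow_le_pow_left₀ hP0 ?_ 2) (by positivity)) h1
    refine Finset.sum_le_sum fun s _ => mul_le_mul_of_nonneg_left ?_ (Finset.prod_nonneg fun j _ => hp0 j _)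
    by_cases hs : ¬ Separated 2 (dia O (word i s)) X
    · have h2 : moment 2 (draw O (lst i s)).close.fPoly = moment 2 X.D.fPoly :=
        moment_of_not_separated O (word i s) X hs
      rw [if_pos hs, if_pos h2]
    · rw [if_neg hs]
      split_ifs <;> norm_num
  rcases Nat.eq_zero_or_pos (#(parallel O i)) with hz | hn
  · rw [hz]
    rcases Nat.eq_zero_or_pos m with hm | hm
    · subst hm; simp
    have h2 := main ⟨0, hm⟩ ⟨0, hm⟩ rfl
    have h3 : 3 * P ^ 2 ≤ 16 := by
      have : 0 ≤ ε * (#(crossings i ⟨0, hm⟩ ⟨0, hm⟩) : ℝ) := by positivity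
      nlinarith [sq_nonneg P]
    have h4 : (0 : ℝ) ≤ (m * (m - 1) : ℕ) := by positivity
    simp only [Nat.cast_zero, mul_zero, add_zero]
    nlinarith
  obtain ⟨a, b, hab, hy⟩ := pigeon O i hn
  have h2 := main a b hab
  have h3 : (#(parallel O i) : ℝ) * 2 ≤ (m * (m - 1) : ℕ) * #(crossings i a b) := by
    have : #(parallel O i) * 2 ≤ m * (m - 1) * #(crossings i a b) := by
      rw [← choose_two]
      calc #(parallel O i) * 2 ≤ m.choose 2 * #(crossings i a b) * 2 := Nat.mul_le_mul_right _ hy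
        _ = _ := by ring
    exact_mod_cast this
  have h4 : (0 : ℝ) ≤ (m * (m - 1) : ℕ) := by positivity
  have h5 : 3 * ((m * (m - 1) : ℕ) + 2 * ε * (#(parallel O i) : ℝ)) * P ^ 2 ≤
      (m * (m - 1) : ℕ) * (3 * (1 + ε * (#(crossings i a b) : ℝ)) * P ^ 2) := by
    have h6 : ε * ((#(parallel O i) : ℝ) * 2) ≤ ε * ((m * (m - 1) : ℕ) * #(crossings i a b)) :=
      mul_le_mul_of_nonneg_left h3 h0
    nlinarith [sq_nonneg P]
  refine h5.trans ?_
  rw [mul_comm (16 : ℝ)]
  exact mul_le_mul_of_nonneg_left h2 h4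

/-! ### random places -/

/-- from fixed places to random places -/
theorem count_words (S : (Fin n → Fin (m - 1)) → Prop) [DecidablePred S]
    (bad : (Fin n → Letter m) → Prop) [DecidablePred bad] (c B : ℕ)
    (h : ∀ i, S i → c * #{s | bad (word i s)} ^ 2 ≤ B * 4 ^ n) :
    c * #{w : Fin n → Letter m | S (fun j => (w j).2) ∧ bad w} ^ 2 ≤
      B * #{w : Fin n → Letter m | S (fun j => (w j).2)} ^ 2 := by
  have e1 : ∀ (P : (Fin n → Letter m) → Prop) [DecidablePred P], #{w | P w} = ∑ i, #{s | P (word i s)} := by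
    intro P _
    rw [Finset.card_filter]
    simp only [Finset.card_filter]
    rw [Finset.sum_comm, ← Fintype.sum_prod_type']
    exact Fintype.sum_equiv (Equiv.arrowProdEquivProdArrow (Fin n) (fun _ => Bool) (fun _ => Fin (m - 1)))
      _ _ fun w => rfl
  have e2 : #{w : Fin n → Letter m | S (fun j => (w j).2) ∧ bad w} =
      ∑ i ∈ univ.filter S, #{s | bad (word i s)} := by
    rw [e1, Finset.sum_filter]
    refine Finset.sum_congr rfl fun i _ => ?_
    by_cases hS : S i
    · rw [if_pos hS]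
      congr 1
      ext s
      simp only [Finset.mem_filter, Finset.mem_univ, true_and]
      exact ⟨fun h => h.2, fun h => ⟨hS, h⟩⟩
    · rw [if_neg hS, Finset.card_eq_zero, Finset.filter_eq_empty_iff]
      intro s _ hs
      exact hS hs.1
  have e3 : #{w : Fin n → Letter m | S (fun j => (w j).2)} = #(univ.filter S) * 2 ^ n := by
    rw [e1, ← smul_eq_mul, ← Finset.sum_const, Finset.sum_filter]
    refine Finset.sum_congr rfl fun i _ => ?_
    by_cases hS : S i
    · rw [if_pos hS]
      have : (univ.filter fun s : Fin n → Bool => S (fun j => (word (m := m) i s j).2)) = univ :=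
        Finset.filter_true_of_mem fun s _ => hS
      rw [this]
      simp
    · rw [if_neg hS, Finset.card_eq_zero, Finset.filter_eq_empty_iff]
      intro s _ hs
      exact hS hs
  rw [e2, e3]
  have h1 : (∑ i ∈ univ.filter S, #{s | bad (word i s)}) ^ 2 ≤
      #(univ.filter S) * ∑ i ∈ univ.filter S, #{s | bad (word i s)} ^ 2 := sq_sum_le_card_mul_sum_sq
  calc c * (∑ i ∈ univ.filter S, #{s | bad (word i s)}) ^ 2
      ≤ c * (#(univ.filter S) * ∑ i ∈ univ.filter S, #{s | bad (word i s)} ^ 2) := Nat.mul_le_mul_left _ h1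
    _ = #(univ.filter S) * ∑ i ∈ univ.filter S, c * #{s | bad (word i s)} ^ 2 := by
        rw [← Finset.mul_sum]; ring
    _ ≤ #(univ.filter S) * ∑ _i ∈ univ.filter S, B * 4 ^ n :=
        Nat.mul_le_mul_left _ (Finset.sum_le_sum fun i hi => h i (Finset.mem_filter.1 hi).2)
    _ = B * (#(univ.filter S) * 2 ^ n) ^ 2 := by
        rw [Finset.sum_const, smul_eq_mul]
        have : (4 : ℕ) ^ n = (2 ^ n) ^ 2 := by rw [← pow_mul, mul_comm, pow_mul]; norm_num
        rw [this]
        ring

/-- from fixed places to random places, for independent letters with arbitrary distributions -/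
theorem prob_words (S : (Fin n → Fin (m - 1)) → Prop) [DecidablePred S]
    (bad : (Fin n → Letter m) → Prop) [DecidablePred bad] (A B ε : ℝ)
    (hA : 0 ≤ A) (hB : 0 ≤ B) (h2 : 2 * ε ≤ 1)
    (q : Fin n → Letter m → ℝ) (hq : ∀ j x, 0 ≤ q j x)
    (hε : ∀ j b i, ε * (q j (false, i) + q j (true, i)) ≤ q j (b, i))
    (h : ∀ i, S i → ∀ p : Fin n → Bool → ℝ, (∀ j b, 0 ≤ p j b) → (∀ j b, ε ≤ p j b) →
      (∀ j, p j false + p j true = 1) →
      A * (∑ s : Fin n → Bool, (∏ j, p j (s j)) * (if bad (word i s) then 1 else 0)) ^ 2 ≤ B) :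
    A * (∑ w : Fin n → Letter m, (∏ j, q j (w j)) *
        (if S (fun j => (w j).2) ∧ bad w then 1 else 0)) ^ 2 ≤
      B * (∑ w : Fin n → Letter m, (∏ j, q j (w j)) * (if S (fun j => (w j).2) then 1 else 0)) ^ 2 := by
  set r : (Fin n → Fin (m - 1)) → ℝ := fun i => ∏ j, (q j (false, i j) + q j (true, i j)) with hr
  have hr0 : ∀ i, 0 ≤ r i := fun i => Finset.prod_nonneg fun j _ => add_nonneg (hq _ _) (hq _ _)
  set p : (Fin n → Fin (m - 1)) → Fin n → Bool → ℝ := fun i j b =>
    if q j (false, i j) + q j (true, i j) = 0 then 1 / 2 else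
      q j (b, i j) / (q j (false, i j) + q j (true, i j)) with hp
  have hp1 : ∀ i j b, 0 ≤ p i j b := by
    intro i j b
    simp only [hp]
    split_ifs with h0
    · norm_num
    · exact div_nonneg (hq _ _) (add_nonneg (hq _ _) (hq _ _))
  have hp2 : ∀ i j b, ε ≤ p i j b := by
    intro i j b
    simp only [hp]
    split_ifs with h0
    · linarith
    · have h3 : 0 < q j (false, i j) + q j (true, i j) :=
        lt_of_le_of_ne (add_nonneg (hq _ _) (hq _ _)) (Ne.symm h0)
      rw [le_div_iff₀ h3]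
      exact hε j b (i j)
  have hp3 : ∀ i j, p i j false + p i j true = 1 := by
    intro i j
    simp only [hp]
    split_ifs with h0
    · norm_num
    · rw [← add_div, div_self h0]
  have hp4 : ∀ i (s : Fin n → Bool), ∏ j, q j (word i s j) = r i * ∏ j, p i j (s j) := by
    intro i s
    rw [hr, ← Finset.prod_mul_distrib]
    refine Finset.prod_congr rfl fun j _ => ?_
    show q j (s j, i j) = _
    simp only [hp]
    split_ifs with h0
    · have h3 := hq j (false, i j)
      have h4 := hq j (true, i j)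
      have h5 : q j (s j, i j) = 0 := by
        cases s j <;> linarith
      rw [h5, h0, zero_mul]
    · field_simp
  have hbij : ∀ g : (Fin n → Letter m) → ℝ, ∑ w, g w = ∑ i, ∑ s, g (word i s) := by
    intro g
    rw [Finset.sum_comm, ← Fintype.sum_prod_type']
    exact Fintype.sum_equiv (Equiv.arrowProdEquivProdArrow (Fin n) (fun _ => Bool) (fun _ => Fin (m - 1)))
      _ _ fun w => rfl
  set Q : (Fin n → Fin (m - 1)) → ℝ := fun i =>
    ∑ s : Fin n → Bool, (∏ j, p i j (s j)) * (if bad (word i s) then 1 else 0) with hQ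
  have hQ0 : ∀ i, 0 ≤ Q i := by
    intro i
    refine Finset.sum_nonneg fun s _ => mul_nonneg (Finset.prod_nonneg fun j _ => hp1 i j _) ?_
    split_ifs <;> norm_num
  have s1 : ∑ w : Fin n → Letter m, (∏ j, q j (w j)) * (if S (fun j => (w j).2) ∧ bad w then 1 else 0) =
      ∑ i ∈ univ.filter S, r i * Q i := by
    rw [hbij, Finset.sum_filter]
    refine Finset.sum_congr rfl fun i _ => ?_
    by_cases hS : S i
    · rw [if_pos hS, hQ, Finset.mul_sum]
      refine Finset.sum_congr rfl fun s _ => ?_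
      rw [hp4]
      have e : (S (fun j => (word (m := m) i s j).2) ∧ bad (word i s)) ↔ bad (word i s) :=
        ⟨fun h => h.2, fun h => ⟨hS, h⟩⟩
      simp only [e]
      ring
    · rw [if_neg hS]
      refine Finset.sum_eq_zero fun s _ => ?_
      rw [if_neg (fun h => hS h.1), mul_zero]
  have s2 : ∑ w : Fin n → Letter m, (∏ j, q j (w j)) * (if S (fun j => (w j).2) then 1 else 0) =
      ∑ i ∈ univ.filter S, r i := by
    rw [hbij, Finset.sum_filter]
    refine Finset.sum_congr rfl fun i _ => ?_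
    by_cases hS : S i
    · rw [if_pos hS]
      have e : ∀ s : Fin n → Bool, (∏ j, q j (word i s j)) *
          (if S (fun j => (word (m := m) i s j).2) then (1 : ℝ) else 0) = r i * ∏ j, p i j (s j) := by
        intro s
        rw [hp4, if_pos (show S (fun j => (word (m := m) i s j).2) from hS), mul_one]
      rw [Finset.sum_congr rfl (fun s _ => e s), ← Finset.mul_sum]
      have e2 : ∑ s : Fin n → Bool, ∏ j, p i j (s j) = 1 := by
        rw [← Fintype.piFinset_univ, ← Finset.prod_univ_sum (fun _ => univ) (fun j b => p i j b)]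
        refine Finset.prod_eq_one fun j _ => ?_
        rw [Fintype.sum_bool]
        linarith [hp3 i j]
      rw [e2, mul_one]
    · rw [if_neg hS]
      refine Finset.sum_eq_zero fun s _ => ?_
      rw [if_neg (show ¬ S (fun j => (word (m := m) i s j).2) from hS), mul_zero]
  rw [s1, s2]
  rcases hA.eq_or_lt with hA0 | hA0
  · rw [← hA0, zero_mul]; positivity
  set R : ℝ := Real.sqrt (B / A) with hR
  have hR2 : R ^ 2 = B / A := Real.sq_sqrt (div_nonneg hB hA)
  have hQR : ∀ i, S i → Q i ≤ R := by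
    intro i hS
    apply Real.le_sqrt_of_sq_le
    rw [le_div_iff₀ hA0]
    have := h i hS (p i) (hp1 i) (hp2 i) (hp3 i)
    linarith
  have h3 : ∑ i ∈ univ.filter S, r i * Q i ≤ (∑ i ∈ univ.filter S, r i) * R := by
    rw [Finset.sum_mul]
    exact Finset.sum_le_sum fun i hi => mul_le_mul_of_nonneg_left (hQR i (Finset.mem_filter.1 hi).2) (hr0 i)
  have h4 : 0 ≤ ∑ i ∈ univ.filter S, r i * Q i :=
    Finset.sum_nonneg fun i _ => mul_nonneg (hr0 i) (hQ0 i)
  calc A * (∑ i ∈ univ.filter S, r i * Q i) ^ 2 ≤ A * ((∑ i ∈ univ.filter S, r i) * R) ^ 2 :=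
        mul_le_mul_of_nonneg_left (pow_le_pow_left₀ h4 h3 2) hA
    _ = (A * R ^ 2) * (∑ i ∈ univ.filter S, r i) ^ 2 := by ring
    _ = B * (∑ i ∈ univ.filter S, r i) ^ 2 := by rw [hR2, mul_div_cancel₀ _ hA0.ne']

/-! ### closed braids -/

theorem closure_closed (m : ℕ) : (braidClosure m).close.IsClosed := by
  intro p
  have e1 : (braidClosure m).close.starts = List.finRange m := by
    unfold Diagram.starts Outer.close braidClosure
    simp
    exact List.map_id _
  have e2 : (braidClosure m).close.ends = List.finRange m := by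
    unfold Diagram.ends Outer.close braidClosure
    simp
    exact List.map_id _
  rw [e1, e2]
  have : (List.finRange m).count p = 1 := List.count_eq_one_of_mem (List.nodup_finRange m) (List.mem_finRange p)
  exact ⟨this, this⟩

theorem closure_word (m : ℕ) (w : Fin n → Letter m) : (diagram (braidClosure m) w).IsClosed :=
  draw_closed (toL w) (braidClosure m) (toL_mem w) (fun _ => rfl) (closure_closed m)

theorem parallel_closure (i : Fin n → Fin (m - 1)) : #(parallel (braidClosure m) i) = n := by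
  have : parallel (braidClosure m) i = univ := by
    unfold parallel
    exact Finset.filter_true_of_mem fun j _ => rfl
  rw [this]
  simp

end Pool.Agent.K6.H17.CL
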