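import Pool.Agent.K6.H17.CL.Comb
import Pool.Agent.R811.Cross.Comb

set_option autoImplicit false

/-! Level sets of a function on the cube which is convex quadratic on a subcube. -/

namespace Pool.Agent.K6.H17.CL

open Finset
open Pool.Agent.R811.Cross (D)

variable {ι : Type} [Fintype ι] [DecidableEq ι]

/-- the number of the points of the level set which differ from `x` at the entries of the list only -/
def cnt (F : (ι → Bool) → ℤ) (c : ℤ) : List ι → (ι → Bool) → ℕ
  | [], x => if F x = c then 1 else 0
  | i :: l, x => cnt F c l (Function.update x i false) + cnt F c l (Function.update x i true)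

theorem sum_update (i : ι) (h : (ι → Bool) → ℕ) :
    ∑ x : ι → Bool, (h (Function.update x i false) + h (Function.update x i true)) = 2 * ∑ x, h x := by
  have e : Function.Involutive (Pool.Agent.R811.Cross.flip i : (ι → Bool) → (ι → Bool)) :=
    Pool.Agent.R811.Cross.flip_flip i
  have e1 : ∑ x, h (Pool.Agent.R811.Cross.flip i x) = ∑ x, h x := Equiv.sum_comp e.toPerm h
  have e2 : ∀ x : ι → Bool, h (Function.update x i false) + h (Function.update x i true) =
      h x + h (Pool.Agent.R811.Cross.flip i x) := by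
    intro x
    unfold Pool.Agent.R811.Cross.flip
    cases hx : x i
    · have : Function.update x i false = x := by rw [← hx]; exact Function.update_eq_self i x
      rw [this]; simp
    · have : Function.update x i true = x := by rw [← hx]; exact Function.update_eq_self i x
      rw [this]
      simp
      ring
  rw [Finset.sum_congr rfl (fun x _ => e2 x), Finset.sum_add_distrib, e1]
  ring

theorem sum_cnt (F : (ι → Bool) → ℤ) (c : ℤ) (l : List ι) :
    ∑ x, cnt F c l x = 2 ^ l.length * #{x | F x = c} := by
  induction l with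
  | nil => simp [cnt]
  | cons i l ih =>
    have : ∀ x, cnt F c (i :: l) x = cnt F c l (Function.update x i false) +
        cnt F c l (Function.update x i true) := fun x => rfl
    rw [Finset.sum_congr rfl (fun x _ => this x), sum_update, ih, List.length_cons, pow_succ]
    ring

omit [Fintype ι] in
theorem cnt_perm (F : (ι → Bool) → ℤ) (c : ℤ) {l l' : List ι} (h : l.Perm l') :
    ∀ x, cnt F c l x = cnt F c l' x := by
  induction h with
  | nil => intro x; rfl
  | cons i _ ih => intro x; unfold cnt; rw [ih, ih]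
  | swap i j l =>
    intro x
    by_cases hij : i = j
    · subst hij; rfl
    · have h2 : ∀ b b' : Bool, Function.update (Function.update x j b) i b' =
          Function.update (Function.update x i b') j b := fun b b' =>
        Function.update_comm (β := fun _ => Bool) (Ne.symm hij) b b' x
      simp only [cnt, h2]
      ring
  | trans _ _ ih1 ih2 => intro x; rw [ih1, ih2]

omit [Fintype ι] in
theorem cnt_congr (F : (ι → Bool) → ℤ) (c : ℤ) (l : List ι) : ∀ (x y : ι → Bool),
    (∀ i, i ∉ l → x i = y i) → cnt F c l x = cnt F c l y := by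
  induction l with
  | nil =>
    intro x y h
    have : x = y := funext fun i => h i (by simp)
    rw [this]
  | cons i l ih =>
    intro x y h
    have key : ∀ b, ∀ j, j ∉ l → Function.update x i b j = Function.update y i b j := by
      intro b j hj
      by_cases hji : j = i
      · subst hji; simp
      · rw [Function.update_of_ne hji, Function.update_of_ne hji]
        exact h j (by simp [hji, hj])
    unfold cnt
    rw [ih _ _ (key false), ih _ _ (key true)]

omit [Fintype ι] in
theorem cnt_eq (F : (ι → Bool) → ℤ) (c κ : ℤ) (β : ι → ℤ) : ∀ (l : List ι), l.Nodup →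
    (∀ i ∈ l, ∀ j ∈ l, i ≠ j → ∀ x, D i (D j F) x = κ) → ∀ (x : ι → Bool) (a : ℕ), (∀ i ∈ l, x i = false) →
    (∀ i ∈ l, D i F x = β i + κ * a) → cnt F c l x = N κ c (l.map β) (F x) a := by
  intro l
  induction l with
  | nil => intro _ _ x a _ _; rfl
  | cons i l ih =>
    intro hl hF x a hx hD
    rw [List.nodup_cons] at hl
    have hxi : x i = false := hx i List.mem_cons_self
    have e0 : Function.update x i false = x := by rw [← hxi]; exact Function.update_eq_self i x
    have e1 : cnt F c (i :: l) x = cnt F c l x + cnt F c l (Function.update x i true) := by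
      show cnt F c l (Function.update x i false) + _ = _
      rw [e0]
    have hF' : ∀ i ∈ l, ∀ j ∈ l, i ≠ j → ∀ x, D i (D j F) x = κ := fun i hi j hj =>
      hF i (List.mem_cons_of_mem _ hi) j (List.mem_cons_of_mem _ hj)
    have i1 := ih hl.2 hF' x a (fun j hj => hx j (List.mem_cons_of_mem _ hj))
      (fun j hj => hD j (List.mem_cons_of_mem _ hj))
    have i2 := ih hl.2 hF' (Function.update x i true) (a + 1)
      (fun j hj => by
        have hji : j ≠ i := fun h => hl.1 (h ▸ hj)
        rw [Function.update_of_ne hji]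
        exact hx j (List.mem_cons_of_mem _ hj))
      (fun j hj => by
        have hji : i ≠ j := fun h => hl.1 (h ▸ hj)
        have h1 := hF i List.mem_cons_self j (List.mem_cons_of_mem _ hj) hji x
        have h2 := hD j (List.mem_cons_of_mem _ hj)
        have h3 : D i (D j F) x = D j F (Function.update x i true) - D j F (Function.update x i false) := rfl
        rw [e0] at h3
        push_cast
        linarith)
    have e2 : F (Function.update x i true) = F x + β i + κ * a := by
      have h1 := hD i List.mem_cons_self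
      have h2 : D i F x = F (Function.update x i true) - F (Function.update x i false) := rfl
      rw [e0] at h2
      linarith
    rw [e1, i1, i2, e2, List.map_cons]
    rfl

omit [Fintype ι] in
theorem cnt_le_pos (F : (ι → Bool) → ℤ) (c κ : ℤ) (hκ : 0 < κ) (l₀ : List ι) (hl₀ : l₀.Nodup)
    (hF : ∀ i ∈ l₀, ∀ j ∈ l₀, i ≠ j → ∀ x, D i (D j F) x = κ) (x : ι → Bool) :
    cnt F c l₀ x ≤ 2 * l₀.length.choose (l₀.length / 2) := by
  set x0 : ι → Bool := fun i => if i ∈ l₀ then false else x i with hx0
  set β : ι → ℤ := fun i => D i F x0 with hβ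
  have : Std.Total (fun i j : ι => β i ≤ β j) := ⟨fun i j => le_total _ _⟩
  have : IsTrans ι (fun i j : ι => β i ≤ β j) := ⟨fun i j k h1 h2 => le_trans h1 h2⟩
  set l := l₀.insertionSort (fun i j : ι => β i ≤ β j) with hl
  have hp : l.Perm l₀ := List.perm_insertionSort _ _
  have hs : l.Pairwise (fun i j => β i ≤ β j) := List.pairwise_insertionSort _ _
  have hmem : ∀ i, i ∈ l ↔ i ∈ l₀ := fun i => hp.mem_iff
  have hlen : l.length = l₀.length := hp.length_eq
  rw [← cnt_perm F c hp x, cnt_congr F c l x x0 (fun i hi => by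
    simp only [hx0]
    rw [if_neg (fun h => hi ((hmem i).2 h))]),
    cnt_eq F c κ β l (hp.nodup_iff.2 hl₀)
      (fun i hi j hj => hF i ((hmem i).1 hi) j ((hmem j).1 hj)) x0 0
      (fun i hi => by simp only [hx0]; rw [if_pos ((hmem i).1 hi)])
      (fun i _ => by simp [hβ])]
  have := N_le κ c hκ (l.map β) (List.pairwise_map.2 hs) (F x0)
  rw [List.length_map, hlen] at this
  exact this

omit [Fintype ι] in
theorem D_neg (i : ι) (F : (ι → Bool) → ℤ) : D i (fun x => -F x) = fun x => -D i F x := by
  funext x
  unfold D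
  ring

omit [Fintype ι] in
theorem cnt_neg (F : (ι → Bool) → ℤ) (c : ℤ) (l : List ι) : ∀ x,
    cnt (fun x => -F x) (-c) l x = cnt F c l x := by
  induction l with
  | nil => intro x; simp [cnt]
  | cons i l ih => intro x; simp only [cnt]; rw [ih, ih]

omit [Fintype ι] in
theorem cnt_le (F : (ι → Bool) → ℤ) (c κ : ℤ) (hκ : κ ≠ 0) (l₀ : List ι) (hl₀ : l₀.Nodup)
    (hF : ∀ i ∈ l₀, ∀ j ∈ l₀, i ≠ j → ∀ x, D i (D j F) x = κ) (x : ι → Bool) :
    cnt F c l₀ x ≤ 2 * l₀.length.choose (l₀.length / 2) := by
  rcases lt_or_gt_of_ne hκ with h | h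
  · rw [← cnt_neg]
    refine cnt_le_pos (fun x => -F x) (-c) (-κ) (by omega) l₀ hl₀ (fun i hi j hj hij x => ?_) x
    rw [D_neg, D_neg]
    show -D i (D j F) x = -κ
    rw [hF i hi j hj hij]
  · exact cnt_le_pos F c κ h l₀ hl₀ hF x

/-- a function all whose second differences in the directions of `C` are equal to `κ ≠ 0` -/
theorem level (F : (ι → Bool) → ℤ) (c κ : ℤ) (hκ : κ ≠ 0) (C : Finset ι)
    (hF : ∀ i ∈ C, ∀ j ∈ C, i ≠ j → ∀ x, D i (D j F) x = κ) :
    #{x | F x = c} ≤ 2 * (#C).choose (#C / 2) * 2 ^ (Fintype.card ι - #C) := by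
  have key : ∀ x, cnt F c C.toList x ≤ 2 * (#C).choose (#C / 2) := by
    intro x
    have := cnt_le F c κ hκ C.toList (Finset.nodup_toList C)
      (fun i hi j hj => hF i (Finset.mem_toList.1 hi) j (Finset.mem_toList.1 hj)) x
    rw [Finset.length_toList] at this
    exact this
  have h1 := sum_cnt F c C.toList
  rw [Finset.length_toList] at h1
  have h2 : ∑ x, cnt F c C.toList x ≤ 2 ^ Fintype.card ι * (2 * (#C).choose (#C / 2)) := by
    calc ∑ x, cnt F c C.toList x ≤ ∑ _x : ι → Bool, 2 * (#C).choose (#C / 2) :=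
          Finset.sum_le_sum fun x _ => key x
      _ = _ := by rw [Finset.sum_const, smul_eq_mul, Finset.card_univ]; simp
  rw [h1] at h2
  have hC : #C ≤ Fintype.card ι := Finset.card_le_univ C
  have h3 : (2 : ℕ) ^ Fintype.card ι = 2 ^ #C * 2 ^ (Fintype.card ι - #C) := by
    rw [← pow_add]; congr 1; omega
  rw [h3] at h2
  have h4 : 2 ^ #C * #{x | F x = c} ≤ 2 ^ #C * (2 * (#C).choose (#C / 2) * 2 ^ (Fintype.card ι - #C)) := by
    calc 2 ^ #C * #{x | F x = c} ≤ 2 ^ #C * 2 ^ (Fintype.card ι - #C) * (2 * (#C).choose (#C / 2)) := h2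
      _ = _ := by ring
  exact Nat.le_of_mul_le_mul_left h4 (by positivity)

/-! ### product measures -/

/-- the weighted sum of `g` over the values at the entries of the list -/
def wsum (p : ι → Bool → ℝ) (g : (ι → Bool) → ℝ) : List ι → (ι → Bool) → ℝ
  | [], x => g x
  | i :: l, x => p i false * wsum p g l (Function.update x i false) +
      p i true * wsum p g l (Function.update x i true)

theorem sum_updateR (i : ι) (h : (ι → Bool) → ℝ) :
    ∑ x : ι → Bool, (h (Function.update x i false) + h (Function.update x i true)) = 2 * ∑ x, h x := by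
  have e : Function.Involutive (Pool.Agent.R811.Cross.flip i : (ι → Bool) → (ι → Bool)) :=
    Pool.Agent.R811.Cross.flip_flip i
  have e1 : ∑ x, h (Pool.Agent.R811.Cross.flip i x) = ∑ x, h x := Equiv.sum_comp e.toPerm h
  have e2 : ∀ x : ι → Bool, h (Function.update x i false) + h (Function.update x i true) =
      h x + h (Pool.Agent.R811.Cross.flip i x) := by
    intro x
    unfold Pool.Agent.R811.Cross.flip
    cases hx : x i
    · have : Function.update x i false = x := by rw [← hx]; exact Function.update_eq_self i x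
      rw [this]; simp
    · have : Function.update x i true = x := by rw [← hx]; exact Function.update_eq_self i x
      rw [this]
      simp
      ring
  rw [Finset.sum_congr rfl (fun x _ => e2 x), Finset.sum_add_distrib, e1]
  ring

/-- the weight of the entries outside the list -/
noncomputable def wt (p : ι → Bool → ℝ) (l : List ι) (x : ι → Bool) : ℝ :=
  ∏ j ∈ univ.filter (fun j => j ∉ l), p j (x j)

theorem sum_wsum (p : ι → Bool → ℝ) (g : (ι → Bool) → ℝ) (l : List ι) (hl : l.Nodup) :
    ∑ x, wt p l x * wsum p g l x = 2 ^ l.length * ∑ x : ι → Bool, (∏ j, p j (x j)) * g x := by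
  induction l with
  | nil => simp [wt, wsum]
  | cons i l ih =>
    rw [List.nodup_cons] at hl
    have h1 : ∀ x, wt p l x = p i (x i) * wt p (i :: l) x := by
      intro x
      unfold wt
      have : univ.filter (fun j => j ∉ l) = insert i (univ.filter (fun j => j ∉ i :: l)) := by
        ext j
        simp only [Finset.mem_filter, Finset.mem_univ, true_and, Finset.mem_insert, List.mem_cons, not_or]
        constructor
        · intro h
          by_cases hji : j = i
          · exact Or.inl hji
          · exact Or.inr ⟨hji, h⟩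
        · rintro (rfl | h)
          · exact hl.1
          · exact h.2
      rw [this, Finset.prod_insert (by simp)]
    have h2 : ∀ x b, wt p (i :: l) (Function.update x i b) = wt p (i :: l) x := by
      intro x b
      unfold wt
      refine Finset.prod_congr rfl fun j hj => ?_
      have hji : j ≠ i := fun h => by
        rw [Finset.mem_filter] at hj
        exact hj.2 (by rw [h]; exact List.mem_cons_self)
      rw [Function.update_of_ne hji]
    have h3 := sum_updateR i (fun x => wt p l x * wsum p g l x)
    rw [ih hl.2] at h3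
    rw [List.length_cons, pow_succ]
    have h4 : ∑ x, wt p (i :: l) x * wsum p g (i :: l) x =
        ∑ x : ι → Bool, (wt p l (Function.update x i false) * wsum p g l (Function.update x i false) +
          wt p l (Function.update x i true) * wsum p g l (Function.update x i true)) := by
      refine Finset.sum_congr rfl fun x _ => ?_
      rw [h1 (Function.update x i false), h1 (Function.update x i true), h2, h2]
      simp only [wsum, Function.update_self]
      ring
    rw [h4, h3]
    ring

omit [Fintype ι] in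
theorem wsum_mono (p : ι → Bool → ℝ) (hp : ∀ j b, 0 ≤ p j b) (g h : (ι → Bool) → ℝ) (hgh : ∀ x, g x ≤ h x)
    (l : List ι) : ∀ x, wsum p g l x ≤ wsum p h l x := by
  induction l with
  | nil => exact hgh
  | cons i l ih =>
    intro x
    exact add_le_add (mul_le_mul_of_nonneg_left (ih _) (hp i false))
      (mul_le_mul_of_nonneg_left (ih _) (hp i true))

omit [Fintype ι] in
theorem wsum_update (p : ι → Bool → ℝ) (g : (ι → Bool) → ℝ) (i : ι) (l : List ι) (hi : i ∉ l) : ∀ x,
    wsum p (fun x => g (Function.update x i false) + g (Function.update x i true)) l x =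
      wsum p g l (Function.update x i false) + wsum p g l (Function.update x i true) := by
  induction l with
  | nil => intro x; rfl
  | cons j l ih =>
    intro x
    have hij : i ≠ j := fun h => hi (by rw [h]; exact List.mem_cons_self)
    have hc : ∀ b b' : Bool, Function.update (Function.update x i b) j b' =
        Function.update (Function.update x j b') i b := fun b b' =>
      Function.update_comm (β := fun _ => Bool) hij b b' x
    simp only [wsum, hc]
    rw [ih (fun h => hi (List.mem_cons_of_mem _ h)), ih (fun h => hi (List.mem_cons_of_mem _ h))]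
    ring

/-- the bound -/
noncomputable def bb (ε : ℝ) : ℕ → ℕ → ℝ
  | 0, u => 2 * (u.choose (u / 2) : ℝ)
  | l + 1, u => ε * bb ε l (u + 1) + (1 - 2 * ε) * bb ε l u

theorem bb_nonneg {ε : ℝ} (h0 : 0 ≤ ε) (h1 : 2 * ε ≤ 1) : ∀ l u, 0 ≤ bb ε l u := by
  intro l
  induction l with
  | zero => intro u; unfold bb; positivity
  | succ l ih =>
    intro u
    unfold bb
    have := ih (u + 1)
    have := ih u
    have : 0 ≤ 1 - 2 * ε := by linarith
    positivity

theorem bb_le {ε : ℝ} (h0 : 0 ≤ ε) (h1 : 2 * ε ≤ 1) : ∀ l u, 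
    3 * (1 + u + ε * l) * bb ε l u ^ 2 ≤ 16 * 4 ^ u := by
  intro l
  induction l with
  | zero =>
    intro u
    unfold bb
    have h2 : ((3 * u * u.choose (u / 2) ^ 2 : ℕ) : ℝ) ≤ ((2 * 4 ^ u : ℕ) : ℝ) := by
      exact_mod_cast choose_half u
    push_cast at h2
    rcases Nat.eq_zero_or_pos u with rfl | hu
    · norm_num
    · have h3 : (1 : ℝ) ≤ u := by exact_mod_cast hu
      have h4 : (0 : ℝ) ≤ (u.choose (u / 2) : ℝ) ^ 2 := by positivity
      push_cast
      nlinarith
  | succ l ih =>
    intro u
    have i1 := ih (u + 1)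
    have i2 := ih u
    have n1 := bb_nonneg h0 h1 l (u + 1)
    have n2 := bb_nonneg h0 h1 l u
    unfold bb
    set a := bb ε l (u + 1)
    set b := bb ε l u
    push_cast at i1 i2 ⊢
    set y : ℝ := 1 + u + ε * l with hy
    have hy1 : 1 ≤ y := by
      rw [hy]
      have : (0 : ℝ) ≤ u := by positivity
      have : 0 ≤ ε * l := by positivity
      linarith
    have e1 : 1 + ((u : ℝ) + 1) + ε * l = y + 1 := by rw [hy]; ring
    have e2 : 1 + (u : ℝ) + ε * (l + 1) = y + ε := by rw [hy]; ring
    rw [e1] at i1
    rw [e2]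
    have hp4 : (0 : ℝ) < 4 ^ u := by positivity
    have i3 : 3 * (y + 1) * a ^ 2 ≤ 16 * (4 ^ u * 4) := by rw [← pow_succ]; exact i1
    -- convexity
    have c1 : (ε * a + (1 - 2 * ε) * b) ^ 2 ≤ 2 * ε * (a / 2) ^ 2 + (1 - 2 * ε) * b ^ 2 := by
      nlinarith [mul_nonneg (mul_nonneg h0 (by linarith : 0 ≤ 1 - 2 * ε)) (sq_nonneg (a / 2 - b))]
    have c2 : (a / 2) ^ 2 ≤ 16 * 4 ^ u / (3 * (y + 1)) := by
      rw [le_div_iff₀ (by positivity)]
      have : (a / 2) ^ 2 * (3 * (y + 1)) = 3 * (y + 1) * a ^ 2 / 4 := by ring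
      rw [this]
      linarith
    have c3 : b ^ 2 ≤ 16 * 4 ^ u / (3 * y) := by
      rw [le_div_iff₀ (by positivity)]
      linarith
    have c4 : 2 * ε * (16 * 4 ^ u / (3 * (y + 1))) + (1 - 2 * ε) * (16 * 4 ^ u / (3 * y)) ≤
        16 * 4 ^ u / (3 * (y + ε)) := by
      have e3 : 16 * 4 ^ u / (3 * (y + ε)) -
          (2 * ε * (16 * 4 ^ u / (3 * (y + 1))) + (1 - 2 * ε) * (16 * 4 ^ u / (3 * y))) =
          16 * 4 ^ u / 3 * ((ε * (y - (1 - 2 * ε))) / (y * (y + 1) * (y + ε))) := by
        have hy0 : y ≠ 0 := by positivity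
        have hy2 : y + 1 ≠ 0 := by positivity
        have hy3 : y + ε ≠ 0 := by positivity
        field_simp
        ring
      have e4 : 0 ≤ 16 * (4 : ℝ) ^ u / 3 * ((ε * (y - (1 - 2 * ε))) / (y * (y + 1) * (y + ε))) := by
        have : 0 ≤ y - (1 - 2 * ε) := by linarith
        positivity
      linarith
    have c5 : (ε * a + (1 - 2 * ε) * b) ^ 2 ≤ 16 * 4 ^ u / (3 * (y + ε)) := by
      refine c1.trans (le_trans ?_ c4)
      exact add_le_add (mul_le_mul_of_nonneg_left c2 (by positivity))
        (mul_le_mul_of_nonneg_left c3 (by linarith))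
    rw [le_div_iff₀ (by positivity)] at c5
    linarith

omit [Fintype ι] in
theorem wsum_le (F : (ι → Bool) → ℤ) (c κ : ℤ) (hκ : κ ≠ 0) (p : ι → Bool → ℝ) (ε : ℝ)
    (h0 : 0 ≤ ε) (h1 : 2 * ε ≤ 1) :
    ∀ (l U : List ι), (∀ j ∈ l, ∀ b, ε ≤ p j b) → (∀ j ∈ l, p j false + p j true = 1) → (l ++ U).Nodup →
    (∀ i ∈ l ++ U, ∀ j ∈ l ++ U, i ≠ j → ∀ x, D i (D j F) x = κ) → ∀ x,
    wsum p (fun x => (cnt F c U x : ℝ)) l x ≤ bb ε l.length U.length := by
  intro l
  induction l with
  | nil =>
    intro U _ _ hU hF x
    have := cnt_le F c κ hκ U hU hF x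
    show (cnt F c U x : ℝ) ≤ 2 * (U.length.choose (U.length / 2) : ℝ)
    exact_mod_cast this
  | cons i l ih =>
    intro U hp hs hU hF x
    have hU' : (l ++ U).Nodup := (List.nodup_cons.1 hU).2
    have hi : i ∉ l ++ U := (List.nodup_cons.1 hU).1
    have hil : i ∉ l := fun h => hi (List.mem_append_left _ h)
    have hperm : (l ++ i :: U).Perm (i :: l ++ U) := List.perm_middle
    have hsub : ∀ a, a ∈ l ++ U → a ∈ i :: l ++ U := fun a ha => List.mem_cons_of_mem _ ha
    have hp' : ∀ j ∈ l, ∀ b, ε ≤ p j b := fun j hj => hp j (List.mem_cons_of_mem _ hj)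
    have hs' : ∀ j ∈ l, p j false + p j true = 1 := fun j hj => hs j (List.mem_cons_of_mem _ hj)
    have i1 := ih (i :: U) hp' hs' (hperm.nodup_iff.2 hU)
      (fun a ha b hb => hF a (hperm.mem_iff.1 ha) b (hperm.mem_iff.1 hb)) x
    have i2 := ih U hp' hs' hU' (fun a ha b hb => hF a (hsub a ha) b (hsub b hb))
    have e1 : wsum p (fun x => (cnt F c (i :: U) x : ℝ)) l x =
        wsum p (fun x => (cnt F c U x : ℝ)) l (Function.update x i false) +
        wsum p (fun x => (cnt F c U x : ℝ)) l (Function.update x i true) := by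
      rw [← wsum_update p _ i l hil]
      congr 1
      funext x
      simp [cnt]
    rw [e1, List.length_cons] at i1
    have p1 := hp i List.mem_cons_self false
    have p2 := hp i List.mem_cons_self true
    have p3 := hs i List.mem_cons_self
    have j1 := i2 (Function.update x i false)
    have j2 := i2 (Function.update x i true)
    show p i false * wsum p (fun x => (cnt F c U x : ℝ)) l (Function.update x i false) +
      p i true * wsum p (fun x => (cnt F c U x : ℝ)) l (Function.update x i true) ≤
        ε * bb ε l.length (U.length + 1) + (1 - 2 * ε) * bb ε l.length U.length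
    set A := wsum p (fun x => (cnt F c U x : ℝ)) l (Function.update x i false)
    set B := wsum p (fun x => (cnt F c U x : ℝ)) l (Function.update x i true)
    have k1 : ε * (A + B) ≤ ε * bb ε l.length (U.length + 1) := mul_le_mul_of_nonneg_left i1 h0
    have k2 : (p i false - ε) * A ≤ (p i false - ε) * bb ε l.length U.length :=
      mul_le_mul_of_nonneg_left j1 (by linarith)
    have k3 : (p i true - ε) * B ≤ (p i true - ε) * bb ε l.length U.length :=
      mul_le_mul_of_nonneg_left j2 (by linarith)
    have k4 : (p i false - ε) + (p i true - ε) = 1 - 2 * ε := by linarith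
    rw [← k4]
    linarith

/-- **Anticoncentration for product measures.** -/
theorem level_prod (F : (ι → Bool) → ℤ) (c κ : ℤ) (hκ : κ ≠ 0) (C : Finset ι)
    (hF : ∀ i ∈ C, ∀ j ∈ C, i ≠ j → ∀ x, D i (D j F) x = κ) (p : ι → Bool → ℝ) (ε : ℝ) (h0 : 0 ≤ ε)
    (hp0 : ∀ j b, 0 ≤ p j b) (hp : ∀ j ∈ C, ∀ b, ε ≤ p j b) (hs : ∀ j, p j false + p j true = 1) :
    3 * (1 + ε * #C) * (∑ x : ι → Bool, (∏ j, p j (x j)) * (if F x = c then 1 else 0)) ^ 2 ≤ 16 := by
  rcases C.eq_empty_or_nonempty with rfl | ⟨j0, hj0⟩
  · have h1 : ∑ x : ι → Bool, (∏ j, p j (x j)) * (if F x = c then 1 else 0) ≤ 1 := by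
      calc ∑ x : ι → Bool, (∏ j, p j (x j)) * (if F x = c then (1 : ℝ) else 0)
          ≤ ∑ x : ι → Bool, ∏ j, p j (x j) := by
            refine Finset.sum_le_sum fun x _ => ?_
            have : 0 ≤ ∏ j, p j (x j) := Finset.prod_nonneg fun j _ => hp0 j _
            split_ifs <;> linarith
        _ = ∏ j : ι, ∑ b : Bool, p j b := by
            rw [Finset.prod_univ_sum, Fintype.piFinset_univ]
        _ = 1 := by
            refine Finset.prod_eq_one fun j _ => ?_
            rw [Fintype.sum_bool]
            linarith [hs j]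
    have h2 : 0 ≤ ∑ x : ι → Bool, (∏ j, p j (x j)) * (if F x = c then (1 : ℝ) else 0) := by
      refine Finset.sum_nonneg fun x _ => mul_nonneg (Finset.prod_nonneg fun j _ => hp0 j _) ?_
      split_ifs <;> norm_num
    simp only [Finset.card_empty, Nat.cast_zero, mul_zero, add_zero, mul_one]
    nlinarith
  have h1 : 2 * ε ≤ 1 := by
    have a1 := hp j0 hj0 false
    have a2 := hp j0 hj0 true
    have a3 := hs j0
    linarith
  set l := C.toList with hl
  have hlen : l.length = #C := Finset.length_toList C
  have hnd : l.Nodup := Finset.nodup_toList C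
  have hmem : ∀ i, i ∈ l ↔ i ∈ C := fun i => Finset.mem_toList
  set g : (ι → Bool) → ℝ := fun x => if F x = c then 1 else 0 with hg
  have hgc : g = fun x => (cnt F c [] x : ℝ) := by
    funext x
    simp only [hg, cnt]
    split_ifs <;> simp
  have key : ∀ x, wsum p g l x ≤ bb ε (#C) 0 := by
    intro x
    have := wsum_le F c κ hκ p ε h0 h1 l [] (fun j hj => hp j ((hmem j).1 hj)) (fun j _ => hs j)
      (by rw [List.append_nil]; exact hnd)
      (fun i hi j hj => by
        rw [List.append_nil] at hi hj
        exact hF i ((hmem i).1 hi) j ((hmem j).1 hj)) x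
    rw [← hgc, hlen] at this
    exact this
  have s1 := sum_wsum p g l hnd
  have s2 := sum_wsum p (fun _ => 1) l hnd
  have s3 : ∀ (l : List ι) x, wsum p (fun _ => (1 : ℝ)) l x = 1 := by
    intro l
    induction l with
    | nil => intro x; rfl
    | cons i l ih => intro x; simp only [wsum]; rw [ih, ih, mul_one, mul_one]; exact hs i
  have s4 : ∑ x : ι → Bool, (∏ j, p j (x j)) * (1 : ℝ) = 1 := by
    simp only [mul_one]
    rw [← Fintype.piFinset_univ, ← Finset.prod_univ_sum (fun _ => univ) (fun j b => p j b)]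
    refine Finset.prod_eq_one fun j _ => ?_
    rw [Fintype.sum_bool]
    linarith [hs j]
  rw [s4, mul_one] at s2
  simp only [s3, mul_one] at s2
  have hw : ∀ x, 0 ≤ wt p l x := fun x => Finset.prod_nonneg fun j _ => hp0 j _
  have h5 : ∑ x, wt p l x * wsum p g l x ≤ 2 ^ l.length * bb ε (#C) 0 := by
    calc ∑ x, wt p l x * wsum p g l x ≤ ∑ x, wt p l x * bb ε (#C) 0 :=
          Finset.sum_le_sum fun x _ => mul_le_mul_of_nonneg_left (key x) (hw x)
      _ = 2 ^ l.length * bb ε (#C) 0 := by rw [← Finset.sum_mul, s2]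
  rw [s1] at h5
  have h6 : ∑ x : ι → Bool, (∏ j, p j (x j)) * g x ≤ bb ε (#C) 0 :=
    le_of_mul_le_mul_left h5 (by positivity)
  have h7 : 0 ≤ ∑ x : ι → Bool, (∏ j, p j (x j)) * g x := by
    refine Finset.sum_nonneg fun x _ => mul_nonneg (Finset.prod_nonneg fun j _ => hp0 j _) ?_
    simp only [hg]
    split_ifs <;> norm_num
  have h8 := bb_le h0 h1 (#C) 0
  simp only [Nat.cast_zero, add_zero, pow_zero, mul_one] at h8
  refine le_trans ?_ h8
  have h9 : 0 ≤ 3 * (1 + ε * (#C : ℝ)) := by positivity
  exact mul_le_mul_of_nonneg_left (pow_le_pow_left₀ h7 h6 2) h9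

end Pool.Agent.K6.H17.CL
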