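import Pool.Agent.W639.RB.Defs

set_option autoImplicit false

/-!
# The strands of a braid word in a box

Words in the letters `σ_i^{±1}` (`Pool.Agent.W639.RB.Defs`) with given places `i` and given signs `s`.
-/

namespace Pool.Agent.K6.H17.CL

open Pool.Agent.H891R2.Jones Pool.Agent.W639.RB

variable {m n : ℕ}

/-- the word `σ_{i_1}^{s_1} ⋯ σ_{i_n}^{s_n}` (`s_j = true`: the exponent `1`, `s_j = false`: `-1`) -/
def word (i : Fin n → Fin (m - 1)) (s : Fin n → Bool) : Fin n → Letter m := fun j => (s j, i j)

/-- the transposition `(i, i+1)` of the places `0, …, m - 1` -/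
def sw (m i : ℕ) : Equiv.Perm (Fin m) :=
  if h : i + 1 < m then Equiv.swap ⟨i, Nat.lt_of_succ_lt h⟩ ⟨i + 1, h⟩ else 1

/-- the product of the transpositions of the first `j` letters of the word: the strand which is at the
place `x` after the first `j` letters enters the box at the place `pre i j x` -/
def pre (i : Fin n → Fin (m - 1)) (j : ℕ) : Equiv.Perm (Fin m) :=
  ((List.ofFn fun t => sw m (i t)).take j).prod

/-- the left one of the two strands which cross at the letter `j`; the strands are named by the places at
which they enter the box at its lower side -/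
def sl (i : Fin n → Fin (m - 1)) (j : Fin n) : Fin m := pre i j ⟨i j, by have := (i j).2; omega⟩

/-- the right one of the two strands which cross at the letter `j` -/
def sr (i : Fin n → Fin (m - 1)) (j : Fin n) : Fin m := pre i j ⟨i j + 1, by have := (i j).2; omega⟩

/-- the letters at which the strands `a` and `b` cross -/
def crossings (i : Fin n → Fin (m - 1)) (a b : Fin m) : Finset (Fin n) :=
  Finset.univ.filter fun j => (sl i j = a ∧ sr i j = b) ∨ (sl i j = b ∧ sr i j = a)

/-- the letters at which the two crossing strands have the same direction -/
def parallel (O : Outer m) (i : Fin n → Fin (m - 1)) : Finset (Fin n) :=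
  Finset.univ.filter fun j => O.up (sl i j) = O.up (sr i j)

end Pool.Agent.K6.H17.CL
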