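import Pool.Agent.K6.H17.CL.Word

set_option autoImplicit false

/-! The number of components of the diagram with a braid word in a box. -/

namespace Pool.Agent.K6.H17.CL

open Finset LaurentPolynomial Pool.Agent.H891R2.Jones Pool.Agent.H832R3.VJ Pool.Agent.W639.RB
open Pool.Agent.Y463.BS (Strand Two al pts W_eq m_bracket sign_parity count_starts card_strand)
open Pool.Agent.H832R3.VJ.V7 (moment_term moment_C_mul)
open Pool.Agent.H953R3.Q2 (T_mul0 T_mul1 T_mul2 mul0 mul1 mul2)

variable {m : ℕ}

/-- two marked points of the outside are joined by an arc or by a strand of a crossing -/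
def SO (O : Outer m) (p q : O.P) : Prop :=
  (p, q) ∈ O.arcs ∨ ∃ x ∈ O.crossings, (p = x.a ∧ q = x.c) ∨ (p = x.b ∧ q = x.d)

/-- the outside `O` arises from `O₀` by drawing a word with the permutation `π` -/
structure Ext (O₀ O : Outer m) (π : Equiv.Perm (Fin m)) (ι : O₀.P → O.P) (κ : O.P → O₀.P) : Prop where
  rel : ∀ x y, SO O₀ x y → Relation.EqvGen (SO O) (ι x) (ι y)
  pts : ∀ p, Relation.EqvGen (SO O) p (ι (κ p))
  lower : ∀ j, Relation.EqvGen (SO O) (O.lower j) (ι (O₀.lower (π j)))
  upper : ∀ j, O.upper j = ι (O₀.upper j)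
  ret : ∀ x, κ (ι x) = x
  rel' : ∀ p q, SO O p q → Relation.EqvGen (SO O₀) (κ p) (κ q)
  lower' : ∀ j, κ (O.lower j) = O₀.lower (π j)

theorem gen_map {α β : Type} {r : α → α → Prop} {s : β → β → Prop} (f : α → β)
    (h : ∀ x y, r x y → Relation.EqvGen s (f x) (f y)) {x y : α} (hxy : Relation.EqvGen r x y) :
    Relation.EqvGen s (f x) (f y) := by
  induction hxy with
  | rel x y hr => exact h x y hr
  | refl x => exact Relation.EqvGen.refl _
  | symm x y _ ih => exact Relation.EqvGen.symm _ _ ih
  | trans x y z _ _ ih1 ih2 => exact Relation.EqvGen.trans _ _ _ ih1 ih2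

theorem ext_push (O₀ O : Outer m) (π : Equiv.Perm (Fin m)) (ι : O₀.P → O.P) (κ : O.P → O₀.P)
    (h : Ext O₀ O π ι κ) (b : Bool) (i : ℕ) : ∃ ι' κ', Ext O₀ (O.push b i) (π * sw m i) ι' κ' := by
  by_cases hi : i + 1 < m
  · unfold sw
    rw [Outer.push, dif_pos hi, dif_pos hi]
    set p : Fin m := ⟨i, Nat.lt_of_succ_lt hi⟩ with hp
    set q : Fin m := ⟨i + 1, hi⟩ with hq
    set O' : Outer m :=
      { P := O.P ⊕ Fin m
        arcs := O.arcs.map (Prod.map .inl .inl) ++
          ((List.finRange m).filter (fun j => j ≠ p ∧ j ≠ q)).map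
            (fun j => if O.up j then (.inl (O.lower j), .inr j) else (.inr j, .inl (O.lower j)))
        crossings := O.crossings.map (Crossing.map .inl) ++ [O.newCrossing p q b]
        lower := .inr
        upper := fun j => .inl (O.upper j)
        up := O.up ∘ Equiv.swap p q } with hO'
    have h1 : ∀ x y : O.P, SO O x y → SO O' (Sum.inl x) (Sum.inl y) := by
      rintro x y (hxy | ⟨c, hc, hxy⟩)
      · left
        exact List.mem_append_left _ (List.mem_map.2 ⟨(x, y), hxy, rfl⟩)
      · right
        refine ⟨Crossing.map Sum.inl c, List.mem_append_left _ (List.mem_map.2 ⟨c, hc, rfl⟩), ?_⟩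
        rcases hxy with ⟨rfl, rfl⟩ | ⟨rfl, rfl⟩
        · left; exact ⟨rfl, rfl⟩
        · right; exact ⟨rfl, rfl⟩
    have h2 : ∀ {x y : O.P}, Relation.EqvGen (SO O) x y → Relation.EqvGen (SO O') (Sum.inl x) (Sum.inl y) :=
      fun hxy => gen_map Sum.inl (fun x y hr => Relation.EqvGen.rel _ _ (h1 x y hr)) hxy
    have hpq : p ≠ q := by
      intro h; have := congrArg Fin.val h
      simp [hp, hq] at this
    have h3 : ∀ j, Relation.EqvGen (SO O') (Sum.inr j) (Sum.inl (O.lower (Equiv.swap p q j))) := by
      intro j
      have hmem : O.newCrossing p q b ∈ O'.crossings :=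
        List.mem_append_right _ (List.mem_singleton.2 rfl)
      by_cases hjp : j = p
      · rw [hjp, Equiv.swap_apply_left]
        cases b
        · exact Relation.EqvGen.symm _ _ (Relation.EqvGen.rel _ _ (Or.inr ⟨_, hmem, Or.inr ⟨rfl, rfl⟩⟩))
        · exact Relation.EqvGen.symm _ _ (Relation.EqvGen.rel _ _ (Or.inr ⟨_, hmem, Or.inl ⟨rfl, rfl⟩⟩))
      · by_cases hjq : j = q
        · rw [hjq, Equiv.swap_apply_right]
          cases b
          · exact Relation.EqvGen.symm _ _ (Relation.EqvGen.rel _ _ (Or.inr ⟨_, hmem, Or.inl ⟨rfl, rfl⟩⟩))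
          · exact Relation.EqvGen.rel _ _ (Or.inr ⟨_, hmem, Or.inr ⟨rfl, rfl⟩⟩)
        · rw [Equiv.swap_apply_of_ne_of_ne hjp hjq]
          have hf : j ∈ (List.finRange m).filter (fun j => j ≠ p ∧ j ≠ q) := by
            rw [List.mem_filter]
            exact ⟨List.mem_finRange j, by simp [hjp, hjq]⟩
          by_cases hup : O.up j = true
          · refine Relation.EqvGen.symm _ _ (Relation.EqvGen.rel _ _ (Or.inl ?_))
            refine List.mem_append_right _ (List.mem_map.2 ⟨j, hf, ?_⟩)
            rw [if_pos hup]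
          · refine Relation.EqvGen.rel _ _ (Or.inl ?_)
            refine List.mem_append_right _ (List.mem_map.2 ⟨j, hf, ?_⟩)
            rw [if_neg hup]
    set κ' : O'.P → O₀.P := fun z => match z with
      | .inl x => κ x
      | .inr j => κ (O.lower (Equiv.swap p q j)) with hκ'
    refine ⟨fun x => Sum.inl (ι x), κ', ?_, ?_, ?_, ?_, ?_, ?_, ?_⟩
    · intro x y hxy
      exact h2 (h.rel x y hxy)
    · intro z
      rcases z with z | j
      · exact h2 (h.pts z)
      · exact (h3 j).trans _ _ _ (h2 (h.pts _))
    · intro j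
      exact (h3 j).trans _ _ _ (h2 (h.lower (Equiv.swap p q j)))
    · intro j
      show Sum.inl (O.upper j) = Sum.inl (ι (O₀.upper j))
      rw [h.upper]
    · intro x
      exact h.ret x
    · rintro x y (hxy | ⟨c, hc, hxy⟩)
      · rcases List.mem_append.1 hxy with hxy | hxy
        · obtain ⟨⟨a, b⟩, hab, hab'⟩ := List.mem_map.1 hxy
          simp only [Prod.map, Prod.mk.injEq] at hab'
          obtain ⟨rfl, rfl⟩ := hab'
          exact h.rel' a b (Or.inl hab)
        · obtain ⟨j, hj, hj'⟩ := List.mem_map.1 hxy
          rw [List.mem_filter] at hj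
          have hj2 := hj.2
          simp only [ne_eq, decide_eq_true_eq] at hj2
          have e : κ' (Sum.inr j) = κ' (Sum.inl (O.lower j)) := by
            show κ (O.lower (Equiv.swap p q j)) = κ (O.lower j)
            rw [Equiv.swap_apply_of_ne_of_ne hj2.1 hj2.2]
          by_cases hup : O.up j = true
          · rw [if_pos hup, Prod.mk.injEq] at hj'
            obtain ⟨rfl, rfl⟩ := hj'
            rw [e]
            exact Relation.EqvGen.refl _
          · rw [if_neg hup, Prod.mk.injEq] at hj'
            obtain ⟨rfl, rfl⟩ := hj'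
            rw [e]
            exact Relation.EqvGen.refl _
      · rcases List.mem_append.1 hc with hc | hc
        · obtain ⟨c', hc', rfl⟩ := List.mem_map.1 hc
          rcases hxy with ⟨rfl, rfl⟩ | ⟨rfl, rfl⟩
          · exact h.rel' _ _ (Or.inr ⟨c', hc', Or.inl ⟨rfl, rfl⟩⟩)
          · exact h.rel' _ _ (Or.inr ⟨c', hc', Or.inr ⟨rfl, rfl⟩⟩)
        · rw [List.mem_singleton] at hc
          subst hc
          have e1 : κ' (Sum.inr p) = κ' (Sum.inl (O.lower q)) := by
            show κ (O.lower (Equiv.swap p q p)) = κ (O.lower q)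
            rw [Equiv.swap_apply_left]
          have e2 : κ' (Sum.inr q) = κ' (Sum.inl (O.lower p)) := by
            show κ (O.lower (Equiv.swap p q q)) = κ (O.lower p)
            rw [Equiv.swap_apply_right]
          cases b
          · rcases hxy with ⟨hx, hy⟩ | ⟨hx, hy⟩
            · have hx' : x = Sum.inl (O.lower p) := hx
              have hy' : y = Sum.inr q := hy
              rw [hx', hy', e2]
              exact Relation.EqvGen.refl _
            · have hx' : x = Sum.inl (O.lower q) := hx
              have hy' : y = Sum.inr p := hy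
              rw [hx', hy', e1]
              exact Relation.EqvGen.refl _
          · rcases hxy with ⟨hx, hy⟩ | ⟨hx, hy⟩
            · have hx' : x = Sum.inl (O.lower q) := hx
              have hy' : y = Sum.inr p := hy
              rw [hx', hy', e1]
              exact Relation.EqvGen.refl _
            · have hx' : x = Sum.inr q := hx
              have hy' : y = Sum.inl (O.lower p) := hy
              rw [hx', hy', e2]
              exact Relation.EqvGen.refl _
    · intro j
      exact h.lower' (Equiv.swap p q j)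
  · unfold sw
    rw [Outer.push, dif_neg hi, dif_neg hi, mul_one]
    exact ⟨ι, κ, h⟩

theorem ext_draw (O₀ : Outer m) (w : List (Bool × ℕ)) : ∀ (O : Outer m) (π : Equiv.Perm (Fin m))
    (ι : O₀.P → O.P) (κ : O.P → O₀.P), Ext O₀ O π ι κ → ∃ ι' κ', Ext O₀ (draw O w) (π * permL m w) ι' κ' := by
  induction w with
  | nil =>
    intro O π ι κ h
    refine ⟨ι, κ, ?_⟩
    have : π * permL m [] = π := by unfold permL; simp
    rw [this]
    exact h
  | cons x w ih =>
    intro O π ι κ h
    obtain ⟨ι1, κ1, h1⟩ := ext_push O₀ O π ι κ h x.1 x.2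
    obtain ⟨ι2, κ2, h2⟩ := ih _ _ _ _ h1
    refine ⟨ι2, κ2, ?_⟩
    rw [permL_cons, ← mul_assoc]
    exact h2

/-- the outside together with strands from the place `π j` at the lower side to the place `j` at the upper
side of the box -/
def through (O : Outer m) (π : Equiv.Perm (Fin m)) (x y : O.P) : Prop :=
  SO O x y ∨ ∃ j, x = O.lower (π j) ∧ y = O.upper j

/-- the number of the curves of the outside together with strands with the permutation `π` in the box -/
noncomputable def comps (O : Outer m) (π : Equiv.Perm (Fin m)) : ℕ := Nat.card (Quot (through O π))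

theorem card_ext (O Q : Outer m) (π : Equiv.Perm (Fin m)) (ι : O.P → Q.P) (κ : Q.P → O.P)
    (h : Ext O Q π ι κ) : Nat.card (Quot (Strand Q.close)) = comps O π := by
  have h1 : ∀ {x y : Q.P}, Relation.EqvGen (SO Q) x y → Relation.EqvGen (Strand Q.close) x y := by
    intro x y hxy
    refine gen_map id (fun x y hr => Relation.EqvGen.rel _ _ ?_) hxy
    rcases hr with hr | hr
    · left; exact List.mem_append_left _ hr
    · right; exact hr
  have h2 : ∀ j, Relation.EqvGen (Strand Q.close) (Q.lower j) (Q.upper j) := by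
    intro j
    by_cases hup : Q.up j = true
    · refine Relation.EqvGen.rel _ _ (Or.inl ?_)
      refine List.mem_append_right _ (List.mem_map.2 ⟨j, List.mem_finRange j, ?_⟩)
      rw [if_pos hup]
    · refine Relation.EqvGen.symm _ _ (Relation.EqvGen.rel _ _ (Or.inl ?_))
      refine List.mem_append_right _ (List.mem_map.2 ⟨j, List.mem_finRange j, ?_⟩)
      rw [if_neg hup]
  have hι : ∀ x y, through O π x y → Relation.EqvGen (Strand Q.close) (ι x) (ι y) := by
    rintro a b (hab | ⟨j, rfl, rfl⟩)
    · exact h1 (h.rel a b hab)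
    · rw [← h.upper]
      exact ((h1 (h.lower j)).symm _ _).trans _ _ _ (h2 j)
  have h3 : ∀ {x y : O.P}, Relation.EqvGen (SO O) x y → Relation.EqvGen (through O π) x y := by
    intro x y hxy
    refine gen_map id (fun x y hr => Relation.EqvGen.rel _ _ ?_) hxy
    exact Or.inl hr
  have hκ : ∀ x y, Strand Q.close x y → Relation.EqvGen (through O π) (κ x) (κ y) := by
    rintro x y (hxy | hxy)
    · rcases List.mem_append.1 hxy with hxy | hxy
      · exact h3 (h.rel' x y (Or.inl hxy))
      · obtain ⟨j, _, hj⟩ := List.mem_map.1 hxy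
        have e : Relation.EqvGen (through O π) (κ (Q.lower j)) (κ (Q.upper j)) := by
          rw [h.lower', h.upper, h.ret]
          exact Relation.EqvGen.rel _ _ (Or.inr ⟨j, rfl, rfl⟩)
        by_cases hup : Q.up j = true
        · rw [if_pos hup, Prod.mk.injEq] at hj
          rw [← hj.1, ← hj.2]
          exact e
        · rw [if_neg hup, Prod.mk.injEq] at hj
          rw [← hj.1, ← hj.2]
          exact e.symm _ _
    · exact h3 (h.rel' x y (Or.inr hxy))
  unfold comps
  refine Nat.card_eq_of_bijective (Quot.lift (fun x => Quot.mk (through O π) (κ x))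
    (fun x y hxy => Quot.eqvGen_sound (hκ x y hxy))) ⟨?_, ?_⟩
  · intro a b hab
    induction a using Quot.ind with
    | mk x =>
      induction b using Quot.ind with
      | mk y =>
        have h4 : Relation.EqvGen (through O π) (κ x) (κ y) := Quot.eqvGen_exact hab
        have h5 := gen_map ι hι h4
        exact Quot.eqvGen_sound (((h1 (h.pts x)).trans _ _ _ h5).trans _ _ _ ((h1 (h.pts y)).symm _ _))
  · intro a
    induction a using Quot.ind with
    | mk x => exact ⟨Quot.mk _ (ι x), by show Quot.mk _ (κ (ι x)) = _; rw [h.ret]⟩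

theorem card_draw (O : Outer m) (w : List (Bool × ℕ)) :
    Nat.card (Quot (Strand (draw O w).close)) = comps O (permL m w) := by
  obtain ⟨ι, κ, h⟩ := ext_draw O w O 1 id id ⟨fun x y h => Relation.EqvGen.rel _ _ h,
    fun p => Relation.EqvGen.refl _, fun j => Relation.EqvGen.refl _, fun j => rfl, fun _ => rfl,
    fun x y h => Relation.EqvGen.rel _ _ h, fun j => rfl⟩
  rw [one_mul] at h
  exact card_ext O _ _ ι κ h

/-- **the value at `A = 1` of the normalised bracket of a link** -/
theorem link_moment {P : Type} [Finite P] [DecidableEq P] [Nonempty P] (D : Diagram P) (hc : D.IsClosed) :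
    -2 * moment 0 D.fPoly = (-2) ^ Nat.card (Quot (Strand D)) := by
  have h2 : Two (al D.arcs D.crossings) := by
    intro p
    right
    have h3 := hc p
    obtain ⟨g1, g2, g3⟩ := count_starts D.crossings p
    unfold Diagram.starts Diagram.ends at h3
    simp only [List.count_append] at h3
    simp only [al, pts, List.count_append]
    omega
  obtain ⟨b0, _⟩ := m_bracket D
  rw [W_eq _ _ h2] at b0
  unfold Pool.Agent.Y463.BS.v at b0
  rw [card_strand]
  obtain ⟨t, ht⟩ := sign_parity D.crossings
  have hw : D.writhe = 2 * t + D.crossings.length := by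
    unfold Diagram.writhe
    linarith
  set ε : ℤ := (-1) ^ D.crossings.length with hε
  have hf : D.fPoly = C ε * (T (-3 * D.writhe) * D.bracket) := by
    unfold Diagram.fPoly
    by_cases he : Even D.writhe
    · have he' : Even D.crossings.length := by
        obtain ⟨r, hr⟩ := he
        rw [← Int.even_coe_nat]
        exact ⟨r - t, by linarith⟩
      rw [if_pos he, hε, he'.neg_one_pow, map_one, one_mul, one_mul]
    · have he' : Odd D.crossings.length := by
        by_contra hno
        rw [Nat.not_odd_iff_even] at hno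
        obtain ⟨r, hr⟩ := hno
        exact he ⟨t + r, by rw [hw, hr]; push_cast; ring⟩
      rw [if_neg he, hε, he'.neg_one_pow, map_neg, map_one]
      ring
  have hee : ε * ε = 1 := by
    rw [hε, ← pow_add, ← two_mul, pow_mul]
    norm_num
  rw [hf, moment_C_mul, T_mul0]
  calc -2 * (ε * moment 0 D.bracket) = ε * (-2 * moment 0 D.bracket) := by ring
    _ = ε * (ε * (-2) ^ Pool.Agent.Y463.BS.lp (Pool.Agent.Y463.BS.X D.crossings ++ D.arcs)) := by rw [b0]
    _ = (ε * ε) * (-2) ^ Pool.Agent.Y463.BS.lp (Pool.Agent.Y463.BS.X D.crossings ++ D.arcs) := by ring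
    _ = _ := by rw [hee, one_mul]

/-- the drawings of words with the same directions at the lower side are closed at the same time -/
theorem good_draw_pull (v : Fin m → Bool) (w : List (Bool × ℕ)) : ∀ O : Outer m, Good (draw O w) v → Good O v := by
  induction w with
  | nil => intro O h; exact h
  | cons x w ih => intro O h; exact Good_pull O v x.1 x.2 (ih _ h)

theorem closed_of_closed (O : Outer m) (w w' : List (Bool × ℕ)) (h : (draw O w).close.IsClosed)
    (hup : O.up ∘ permL m w' = O.up ∘ permL m w) : (draw O w').close.IsClosed := by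
  rw [closed_iff] at h ⊢
  rw [draw_up'] at h ⊢
  rw [hup]
  exact good_draw _ w' O (good_draw_pull _ w O h)

theorem m0_draw (O : Outer m) (hm : 0 < m) (w : List (Bool × ℕ)) (hc : (draw O w).close.IsClosed) :
    -2 * moment 0 (draw O w).close.fPoly = (-2) ^ comps O (permL m w) := by
  have : Nonempty (draw O w).P := ⟨(draw O w).lower ⟨0, hm⟩⟩
  rw [← card_draw]
  exact link_moment _ hc

end Pool.Agent.K6.H17.CL
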