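import Pool.Agent.H891R2.Jones.Closed

set_option autoImplicit false

/-! Closedness of an outside from the closedness of a drawing in its box. -/

namespace Pool.Agent.K6.H17.CL

open Finset Pool.Agent.H891R2.Jones

variable {m : ℕ}

theorem Sst_pull (O : Outer m) (v : Fin m → Bool) (pos : Bool) (i : ℕ) (h : i + 1 < m)
    (hO : ∀ x, Sst (O.push pos i) v x = 1) : ∀ x, Sst O v x = 1 := by
  have hdef : O.push pos i = 
    { P := O.P ⊕ Fin m
      arcs := O.arcs.map (Prod.map .inl .inl) ++
        ((List.finRange m).filter (fun j => j ≠ ⟨i, Nat.lt_of_succ_lt h⟩ ∧ j ≠ ⟨i+1, h⟩)).map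
          (fun j => if O.up j then (.inl (O.lower j), .inr j) else (.inr j, .inl (O.lower j)))
      crossings := O.crossings.map (Crossing.map .inl) ++ 
        [O.newCrossing ⟨i, Nat.lt_of_succ_lt h⟩ ⟨i+1, h⟩ pos]
      lower := .inr
      upper := fun j => .inl (O.upper j)
      up := O.up ∘ Equiv.swap ⟨i, Nat.lt_of_succ_lt h⟩ ⟨i+1, h⟩ } := by
    rw [Outer.push, dif_pos h]
  rw [hdef] at hO
  have hpq : (⟨i, Nat.lt_of_succ_lt h⟩ : Fin m) ≠ ⟨i+1, h⟩ := by
    intro h'; simp only [Fin.mk.injEq] at h'; omega
  generalize (⟨i, Nat.lt_of_succ_lt h⟩ : Fin m) = p at hpq hO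
  generalize (⟨i+1, h⟩ : Fin m) = q at hpq hO
  · intro x
    have hx := hO (Sum.inl x)
    unfold Sst at hx ⊢
    dsimp only at hx
    rw [List.map_append, List.sum_append, List.map_map, List.map_map, sum_filter_map,
      ← Fin.sum_univ_def, List.map_append, List.sum_append, List.map_map, List.map_singleton,
      List.sum_singleton] at hx
    have e1 : ((fun z : (O.P ⊕ Fin m) × (O.P ⊕ Fin m) => if z.1 = Sum.inl x then (1:ℕ) else 0) ∘ 
        Prod.map Sum.inl Sum.inl) = fun z : O.P × O.P => if z.1 = x then 1 else 0 := by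
      funext z; simp
    have e2 : (cst (Sum.inl x : O.P ⊕ Fin m) ∘ Crossing.map Sum.inl) = cst x := by
      funext c
      simp only [Function.comp_apply, cst, Crossing.map]
      congr 1
      · split_ifs <;> simp_all
      · split_ifs <;> simp_all
    have e3 : (∑ j, if (O.up ∘ Equiv.swap p q) j = true ∧ (Sum.inr j : O.P ⊕ Fin m) = Sum.inl x 
        then (1:ℕ) else 0) = 0 := by
      apply Finset.sum_eq_zero; intro j _; simp
    have e4 : (∑ j, if ¬ v j = true ∧ (Sum.inl (O.upper j) : O.P ⊕ Fin m) = Sum.inl x then (1:ℕ) else 0)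
        = ∑ j, if ¬ v j = true ∧ O.upper j = x then 1 else 0 := by
      refine Finset.sum_congr rfl fun j _ => ?_
      simp
    have e5 : (∑ j, if j ≠ p ∧ j ≠ q then ((fun z : (O.P ⊕ Fin m) × (O.P ⊕ Fin m) => 
          if z.1 = Sum.inl x then (1:ℕ) else 0) ∘ 
          (fun j => if O.up j = true then (Sum.inl (O.lower j), Sum.inr j) 
            else (Sum.inr j, Sum.inl (O.lower j)))) j else 0) + 
          cst (Sum.inl x) (O.newCrossing p q pos) = 
        ∑ j, if O.up j = true ∧ O.lower j = x then 1 else 0 := by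
      have e6 : ∀ j, (if O.up j = true ∧ O.lower j = x then (1:ℕ) else 0) = 
          (if j ≠ p ∧ j ≠ q then (if O.up j = true ∧ O.lower j = x then (1:ℕ) else 0) else 0) + 
          ((if j = p then (if O.up j = true ∧ O.lower j = x then (1:ℕ) else 0) else 0) + 
          (if j = q then (if O.up j = true ∧ O.lower j = x then (1:ℕ) else 0) else 0)) := by
        intro j
        by_cases h1 : j = p
        · subst h1; simp [hpq]
        · by_cases h2 : j = q
          · subst h2; simp [h1]
          · simp [h1, h2]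
      rw [Finset.sum_congr rfl (fun j _ => e6 j), Finset.sum_add_distrib, Finset.sum_add_distrib,
        Finset.sum_ite_eq' Finset.univ p, Finset.sum_ite_eq' Finset.univ q]
      simp only [Finset.mem_univ, if_true]
      congr 1
      · refine Finset.sum_congr rfl fun j _ => ?_
        by_cases hj : j ≠ p ∧ j ≠ q
        · rw [if_pos hj, if_pos hj]
          cases hu : O.up j <;> simp [hu]
        · rw [if_neg hj, if_neg hj]
      · unfold cst Outer.newCrossing
        cases pos <;> cases hp : O.up p <;> cases hq : O.up q <;> simp [add_comm]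
    rw [e1, e2, e3, e4] at hx
    omega

theorem Good_pull (O : Outer m) (v : Fin m → Bool) (pos : Bool) (i : ℕ) (hO : Good (O.push pos i) v) :
    Good O v := by
  by_cases h : i + 1 < m
  · refine ⟨Sst_pull O v pos i h hO.1, ?_⟩
    have h2 := hO.2
    rw [rev_push] at h2
    exact Sst_pull O.rev _ pos i h h2
  · unfold Outer.push at hO
    rw [dif_neg h] at hO
    exact hO

end Pool.Agent.K6.H17.CL
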