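import Pool.Agent.W639.RB.Knots
import Pool.Agent.Y463.BS.Last
import Pool.Agent.R811.Cross.Skein
import Pool.Agent.K6.H17.CL.Pull
import Pool.Agent.K6.H17.CL.Defs

set_option autoImplicit false

/-! The skein relation for the letters of a braid word in a box, and the first moments. -/

namespace Pool.Agent.K6.H17.CL

open Finset LaurentPolynomial Pool.Agent.H891R2.Jones Pool.Agent.H832R3.VJ Pool.Agent.W639.RB

variable {m : ℕ}

theorem Zg_comb (A : ℂ) (N : ℕ) (O : Outer m) (a b : ℂ) (g h : (Fin m → Fin N) → ((Fin m → Fin N) → ℂ)) :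
    Zg A N O (a • g + b • h) = a * Zg A N O g + b * Zg A N O h := by
  unfold Zg
  rw [Finset.mul_sum, Finset.mul_sum, ← Finset.sum_add_distrib]
  refine Finset.sum_congr rfl fun u _ => ?_
  simp only [Pi.add_apply, Pi.smul_apply, smul_eq_mul]
  ring

theorem lt_skein {A : ℂ} (hA : A ≠ 0) (N i : ℕ) :
    A • lt A m N (true, i) = A⁻¹ • lt A m N (false, i) + (A ^ 2 - A⁻¹ ^ 2) • 1 := by
  have h1 : lt A m N (true, i) = A • 1 + A⁻¹ • ee m N ((Fin m → Fin N) → ℂ) i := rfl
  have h2 : lt A m N (false, i) = A⁻¹ • 1 + A⁻¹⁻¹ • ee m N ((Fin m → Fin N) → ℂ) i := rfl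
  rw [h1, h2, inv_inv, smul_add, smul_add, smul_smul, smul_smul, smul_smul, smul_smul, mul_inv_cancel₀ hA,
    inv_mul_cancel₀ hA]
  module

theorem rho_skein {A : ℂ} (hA : A ≠ 0) (N i : ℕ) (u v : List (Bool × ℕ)) :
    A • rho A m N (u ++ (true, i) :: v) =
      A⁻¹ • rho A m N (u ++ (false, i) :: v) + (A ^ 2 - A⁻¹ ^ 2) • rho A m N (u ++ v) := by
  have h : ∀ b, rho A m N (u ++ (b, i) :: v) = rho A m N u * (lt A m N (b, i) * rho A m N v) := by
    intro b
    rw [rho_append]
    congr 1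
  rw [h, h, rho_append, ← mul_smul_comm, ← smul_mul_assoc, lt_skein hA, add_mul, mul_add, smul_mul_assoc,
    smul_mul_assoc, one_mul, mul_smul_comm, mul_smul_comm]

theorem B_eq (N : ℕ) (hN : 3 ≤ N) (O : Outer m) (hm : 0 < m) (w : List (Bool × ℕ))
    (hw : ∀ x ∈ w, x.2 + 1 < m) :
    (N : ℂ) * ev N hN (draw O w).close.bracket =
      Zg (Ar N) N O (rho (Ar N) m N w (fun x y => ind (x = y))) := by
  have : Nonempty (draw O w).P := ⟨(draw O w).lower ⟨0, hm⟩⟩
  rw [ev_bracket N hN (draw O w).close, Z_close, Zg_draw _ _ hw]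

theorem B_skein (N : ℕ) (hN : 3 ≤ N) (O : Outer m) (u v : List (Bool × ℕ)) (i : ℕ) (hi : i + 1 < m)
    (hu : ∀ x ∈ u, x.2 + 1 < m) (hv : ∀ x ∈ v, x.2 + 1 < m) :
    Ar N * ev N hN (draw O (u ++ (true, i) :: v)).close.bracket =
      (Ar N)⁻¹ * ev N hN (draw O (u ++ (false, i) :: v)).close.bracket +
        (Ar N ^ 2 - (Ar N)⁻¹ ^ 2) * ev N hN (draw O (u ++ v)).close.bracket := by
  have hA := Ar_ne N hN
  have hNC : (N : ℂ) ≠ 0 := by
    rw [Nat.cast_ne_zero]; omega
  have hb : ∀ b, ∀ x ∈ u ++ (b, i) :: v, x.2 + 1 < m := by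
    intro b x hx
    rw [List.mem_append, List.mem_cons] at hx
    rcases hx with hx | rfl | hx
    · exact hu x hx
    · exact hi
    · exact hv x hx
  have h0 : ∀ x ∈ u ++ v, x.2 + 1 < m := by
    intro x hx
    rw [List.mem_append] at hx
    rcases hx with hx | hx
    · exact hu x hx
    · exact hv x hx
  have h1 := B_eq N hN O (by omega) _ (hb true)
  have h2 := B_eq N hN O (by omega) _ (hb false)
  have h3 := B_eq N hN O (by omega) _ h0
  set g0 : (Fin m → Fin N) → ((Fin m → Fin N) → ℂ) := fun x y => ind (x = y) with hg0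
  have h4 := congrArg (fun S : Module.End ℂ ((Fin m → Fin N) → ((Fin m → Fin N) → ℂ)) =>
    Zg (Ar N) N O (S g0)) (rho_skein (m := m) hA N i u v)
  simp only [LinearMap.add_apply, LinearMap.smul_apply] at h4
  rw [Zg_comb, ← h2, ← h3] at h4
  have h5 : Zg (Ar N) N O (Ar N • (rho (Ar N) m N (u ++ (true, i) :: v)) g0) =
      Ar N * Zg (Ar N) N O ((rho (Ar N) m N (u ++ (true, i) :: v)) g0) := by
    have := Zg_comb (Ar N) N O (Ar N) 0 ((rho (Ar N) m N (u ++ (true, i) :: v)) g0) g0
    rw [zero_smul, add_zero, zero_mul, add_zero] at this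
    exact this
  rw [h5, ← h1] at h4
  apply mul_left_cancel₀ hNC
  linear_combination h4

/-- the permutation of a word -/
def permL (m : ℕ) (w : List (Bool × ℕ)) : Equiv.Perm (Fin m) := (w.map (fun x => sw m x.2)).prod

theorem permL_append (u v : List (Bool × ℕ)) : permL m (u ++ v) = permL m u * permL m v := by
  unfold permL; rw [List.map_append, List.prod_append]

theorem permL_cons (x : Bool × ℕ) (v : List (Bool × ℕ)) : permL m (x :: v) = sw m x.2 * permL m v := by
  unfold permL; rw [List.map_cons, List.prod_cons]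

theorem push_up (O : Outer m) (b : Bool) (i : ℕ) : (O.push b i).up = O.up ∘ sw m i := by
  unfold Outer.push sw
  by_cases h : i + 1 < m
  · rw [dif_pos h, dif_pos h]
  · rw [dif_neg h, dif_neg h]
    rfl

theorem draw_up' (w : List (Bool × ℕ)) : ∀ O : Outer m, (draw O w).up = O.up ∘ permL m w := by
  induction w with
  | nil => intro O; rfl
  | cons x w ih =>
    intro O
    have h1 : draw O (x :: w) = draw (O.push x.1 x.2) w := rfl
    rw [h1, ih, push_up, permL_cons]
    rfl

theorem draw_append (O : Outer m) (u v : List (Bool × ℕ)) : draw O (u ++ v) = draw (draw O u) v := by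
  unfold draw
  rw [List.foldl_append]

/-- the contribution of a word to the writhe -/
def owc : List (Bool × ℕ) → (Fin m → Bool) → ℤ
  | [], _ => 0
  | x :: w, U => (if x.1 then 1 else -1) * (pat U x.2 * pat U (x.2 + 1)) + owc w (U ∘ sw m x.2)

theorem owr_draw (w : List (Bool × ℕ)) : ∀ O : Outer m, (∀ x ∈ w, x.2 + 1 < m) →
    owr (draw O w) = owr O + owc w O.up := by
  induction w with
  | nil => intro O _; simp [draw, owc]
  | cons x w ih =>
    intro O hw
    have h1 : draw O (x :: w) = draw (O.push x.1 x.2) w := rfl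
    rw [h1, ih _ (fun y hy => hw y (List.mem_cons_of_mem _ hy)), push_up,
      (push_writhe O x.1 x.2 (hw x List.mem_cons_self)).1]
    simp only [owc]
    ring

/-- the two strands at the places `i`, `i + 1` have the same direction -/
def Par (U : Fin m → Bool) (i : ℕ) : Prop := pat U i * pat U (i + 1) = 1

theorem par_comp {U : Fin m → Bool} {i : ℕ} (hi : i + 1 < m) (h : Par U i) : U ∘ sw m i = U := by
  unfold Par pat at h
  rw [dif_pos hi, dif_pos (Nat.lt_of_succ_lt hi)] at h
  unfold sw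
  rw [dif_pos hi]
  have h1 : U ⟨i, Nat.lt_of_succ_lt hi⟩ = U ⟨i + 1, hi⟩ := by
    revert h
    cases U ⟨i, Nat.lt_of_succ_lt hi⟩ <;> cases U ⟨i + 1, hi⟩ <;> simp
  funext j
  rw [Function.comp_apply]
  by_cases hp : j = ⟨i, Nat.lt_of_succ_lt hi⟩
  · rw [hp, Equiv.swap_apply_left, h1]
  · by_cases hq : j = ⟨i + 1, hi⟩
    · rw [hq, Equiv.swap_apply_right, h1]
    · rw [Equiv.swap_apply_of_ne_of_ne hp hq]

/-- the skein relation -/
theorem wskein (O : Outer m) (u v : List (Bool × ℕ)) (i : ℕ) (hi : i + 1 < m)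
    (hpar : Par (O.up ∘ permL m u) i)
    (hu : ∀ x ∈ u, x.2 + 1 < m) (hv : ∀ x ∈ v, x.2 + 1 < m) :
    T 4 * (draw O (u ++ (true, i) :: v)).close.fPoly - T (-4) * (draw O (u ++ (false, i) :: v)).close.fPoly =
      (T (-2) - T 2) * (draw O (u ++ v)).close.fPoly := by
  have hb : ∀ b, ∀ x ∈ u ++ (b, i) :: v, x.2 + 1 < m := by
    intro b x hx
    rw [List.mem_append, List.mem_cons] at hx
    rcases hx with hx | rfl | hx
    · exact hu x hx
    · exact hi
    · exact hv x hx
  have h0 : ∀ x ∈ u ++ v, x.2 + 1 < m := by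
    intro x hx
    rw [List.mem_append] at hx
    rcases hx with hx | hx
    · exact hu x hx
    · exact hv x hx
  set W : ℤ := (draw O (u ++ v)).close.writhe with hW
  have w0 : W = owr (draw O u) + owc v (O.up ∘ permL m u) := by
    rw [hW, close_writhe, draw_append, owr_draw v _ hv, draw_up']
  have w1 : (draw O (u ++ (true, i) :: v)).close.writhe = W + 1 := by
    rw [close_writhe, draw_append, owr_draw _ (draw O u) (fun x hx => by
      rw [List.mem_cons] at hx
      rcases hx with rfl | hx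
      · exact hi
      · exact hv x hx), draw_up', w0]
    simp only [owc]
    rw [par_comp hi hpar, hpar]
    simp
    ring
  have w2 : (draw O (u ++ (false, i) :: v)).close.writhe = W - 1 := by
    rw [close_writhe, draw_append, owr_draw _ (draw O u) (fun x hx => by
      rw [List.mem_cons] at hx
      rcases hx with rfl | hx
      · exact hi
      · exact hv x hx), draw_up', w0]
    simp only [owc]
    rw [par_comp hi hpar, hpar]
    simp
    ring
  by_contra hne
  obtain ⟨N, hN, hev⟩ := exists_ev_ne _ (sub_ne_zero.2 hne)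
  apply hev
  have hA := Ar_ne N hN
  have hB := B_skein N hN O u v i hi hu hv
  unfold Diagram.fPoly
  rw [← hW, w1, w2]
  have p1 : (if Even (W + 1) then (1 : ℤ[T;T⁻¹]) else -1) = -(if Even W then 1 else -1) := by
    by_cases h : Even W
    · rw [if_neg (fun h' => (Int.even_add_one.1 h') h), if_pos h]
    · rw [if_pos (Int.even_add_one.2 h), if_neg h, neg_neg]
  have p2 : (if Even (W - 1) then (1 : ℤ[T;T⁻¹]) else -1) = -(if Even W then 1 else -1) := by
    by_cases h : Even W
    · rw [if_neg (fun h' => (Int.even_sub_one.1 h') h), if_pos h]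
    · rw [if_pos (Int.even_sub_one.2 h), if_neg h, neg_neg]
  rw [p1, p2]
  simp only [map_sub, map_mul, map_neg, ev_T]
  generalize ev N hN (if Even W then 1 else -1) = ε
  have e1 : Ar N ^ (4 : ℤ) * (-ε * Ar N ^ (-3 * (W + 1)) *
      ev N hN (draw O (u ++ (true, i) :: v)).close.bracket) =
      -ε * Ar N ^ (-3 * W) * (Ar N * ev N hN (draw O (u ++ (true, i) :: v)).close.bracket) := by
    have : Ar N ^ (4 : ℤ) * Ar N ^ (-3 * (W + 1)) = Ar N ^ (-3 * W) * Ar N := by
      rw [← zpow_add₀ hA, ← zpow_add_one₀ hA]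
      congr 1
      ring
    linear_combination (-ε * ev N hN (draw O (u ++ (true, i) :: v)).close.bracket) * this
  have e2 : Ar N ^ (-4 : ℤ) * (-ε * Ar N ^ (-3 * (W - 1)) *
      ev N hN (draw O (u ++ (false, i) :: v)).close.bracket) =
      -ε * Ar N ^ (-3 * W) * ((Ar N)⁻¹ * ev N hN (draw O (u ++ (false, i) :: v)).close.bracket) := by
    have : Ar N ^ (-4 : ℤ) * Ar N ^ (-3 * (W - 1)) = Ar N ^ (-3 * W) * (Ar N)⁻¹ := by
      rw [← zpow_add₀ hA, ← zpow_sub_one₀ hA]
      congr 1
      ring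
    linear_combination (-ε * ev N hN (draw O (u ++ (false, i) :: v)).close.bracket) * this
  have e3 : Ar N ^ (-2 : ℤ) = (Ar N)⁻¹ ^ 2 := by
    rw [zpow_neg, inv_pow]
    rfl
  have e4 : Ar N ^ (2 : ℤ) = Ar N ^ 2 := by norm_cast
  rw [e1, e2, e3, e4]
  linear_combination (-ε * Ar N ^ (-3 * W)) * hB

end Pool.Agent.K6.H17.CL
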