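import Pool.Agent.K6.H17.CL.Link
import Pool.Agent.K6.H17.CL.Cube
import Pool.Agent.R811.Cross.Main

set_option autoImplicit false

/-! The second differences of the invariant of order two for two letters which cross the same strands. -/

namespace Pool.Agent.K6.H17.CL

open Finset LaurentPolynomial Pool.Agent.H891R2.Jones Pool.Agent.H832R3.VJ Pool.Agent.W639.RB
open Pool.Agent.R811.Cross (m_sub m_T D D_comm)
open Pool.Agent.H953R3.Q2 (T_mul0 T_mul1 T_mul2 mul0 mul1 mul2)

variable {m n : ℕ}

/-- the first moments of a skein triple -/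
theorem wskein_m1 (O : Outer m) (u v : List (Bool × ℕ)) (i : ℕ) (hi : i + 1 < m)
    (hpar : Par (O.up ∘ permL m u) i)
    (hu : ∀ x ∈ u, x.2 + 1 < m) (hv : ∀ x ∈ v, x.2 + 1 < m) :
    moment 1 (draw O (u ++ (true, i) :: v)).close.fPoly - moment 1 (draw O (u ++ (false, i) :: v)).close.fPoly =
      -4 * (moment 0 (draw O (u ++ (true, i) :: v)).close.fPoly +
        moment 0 (draw O (u ++ (false, i) :: v)).close.fPoly + moment 0 (draw O (u ++ v)).close.fPoly) := by
  have h := congrArg (moment 1) (wskein O u v i hi hpar hu hv)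
  rw [m_sub, T_mul1, T_mul1, mul1, m_sub, m_sub, m_T, m_T, m_T, m_T] at h
  linarith

/-- the mixed difference of the second moments -/
theorem word_diff (O : Outer m) (u v z : List (Bool × ℕ)) (p q : ℕ) (hp : p + 1 < m) (hq : q + 1 < m)
    (hu : ∀ x ∈ u, x.2 + 1 < m) (hv : ∀ x ∈ v, x.2 + 1 < m) (hz : ∀ x ∈ z, x.2 + 1 < m)
    (par1 : Par (O.up ∘ permL m u) p) (par2 : ∀ b, Par (O.up ∘ permL m (u ++ (b, p) :: v)) q)
    (M M' : ℤ)
    (h1 : ∀ b b', moment 0 (draw O (u ++ (b, p) :: (v ++ (b', q) :: z))).close.fPoly = M)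
    (h2 : ∀ b', moment 0 (draw O (u ++ (v ++ (b', q) :: z))).close.fPoly = M')
    (h3 : ∀ b, moment 0 (draw O (u ++ (b, p) :: (v ++ z))).close.fPoly = M')
    (h0 : moment 0 (draw O (u ++ v ++ z)).close.fPoly = M) :
    (moment 2 (draw O (u ++ (true, p) :: (v ++ (true, q) :: z))).close.fPoly -
      moment 2 (draw O (u ++ (false, p) :: (v ++ (true, q) :: z))).close.fPoly) -
    (moment 2 (draw O (u ++ (true, p) :: (v ++ (false, q) :: z))).close.fPoly -
      moment 2 (draw O (u ++ (false, p) :: (v ++ (false, q) :: z))).close.fPoly) = 160 * M + 128 * M' := by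
  have hvz : ∀ b', ∀ x ∈ v ++ (b', q) :: z, x.2 + 1 < m := by
    intro b' x hx
    rw [List.mem_append, List.mem_cons] at hx
    rcases hx with hx | rfl | hx
    · exact hv x hx
    · exact hq
    · exact hz x hx
  have huv : ∀ x ∈ u ++ v, x.2 + 1 < m := by
    intro x hx
    rw [List.mem_append] at hx
    rcases hx with hx | hx
    · exact hu x hx
    · exact hv x hx
  have hupv : ∀ b, ∀ x ∈ u ++ (b, p) :: v, x.2 + 1 < m := by
    intro b x hx
    rw [List.mem_append, List.mem_cons] at hx
    rcases hx with hx | rfl | hx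
    · exact hu x hx
    · exact hp
    · exact hv x hx
  have par3 : Par (O.up ∘ permL m (u ++ v)) q := by
    have h := par2 true
    have e : O.up ∘ permL m (u ++ (true, p) :: v) = O.up ∘ permL m (u ++ v) := by
      rw [permL_append, permL_cons, permL_append]
      funext j
      show O.up (permL m u (sw m p (permL m v j))) = O.up (permL m u (permL m v j))
      exact congrFun (par_comp hp par1) (permL m v j)
    rw [e] at h
    exact h
  have s1 := wskein O u (v ++ (true, q) :: z) p hp par1 hu (hvz true)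
  have s2 := wskein O u (v ++ (false, q) :: z) p hp par1 hu (hvz false)
  have s3 := wskein O (u ++ v) z q hq par3 huv hz
  rw [List.append_assoc, List.append_assoc u v ((false, q) :: z)] at s3
  have t8 : (T 8 : ℤ[T;T⁻¹]) = T 4 * T 4 := by rw [← T_add]; norm_num
  have t8' : (T (-8) : ℤ[T;T⁻¹]) = T (-4) * T (-4) := by rw [← T_add]; norm_num
  have t0 : (T 4 * T (-4) : ℤ[T;T⁻¹]) = 1 := by rw [← T_add]; norm_num
  have key : T 8 * (draw O (u ++ (true, p) :: (v ++ (true, q) :: z))).close.fPoly -
      (draw O (u ++ (true, p) :: (v ++ (false, q) :: z))).close.fPoly -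
      (draw O (u ++ (false, p) :: (v ++ (true, q) :: z))).close.fPoly +
      T (-8) * (draw O (u ++ (false, p) :: (v ++ (false, q) :: z))).close.fPoly =
      (T (-2) - T 2) ^ 2 * (draw O (u ++ v ++ z)).close.fPoly := by
    rw [t8, t8']
    linear_combination T 4 * s1 - T (-4) * s2 + (T (-2) - T 2) * s3 +
      ((draw O (u ++ (true, p) :: (v ++ (false, q) :: z))).close.fPoly +
        (draw O (u ++ (false, p) :: (v ++ (true, q) :: z))).close.fPoly) * t0
  have k2 := congrArg (moment 2) key
  rw [moment_add, m_sub, m_sub, T_mul2, T_mul2, mul2] at k2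
  have z0 : moment 0 ((T (-2) - T 2 : ℤ[T;T⁻¹]) ^ 2) = 0 := by
    rw [pow_two, mul0, m_sub, m_T, m_T]; norm_num
  have z1 : moment 1 ((T (-2) - T 2 : ℤ[T;T⁻¹]) ^ 2) = 0 := by
    rw [pow_two, mul1, m_sub, m_sub, m_T, m_T, m_T, m_T]; norm_num
  have z2 : moment 2 ((T (-2) - T 2 : ℤ[T;T⁻¹]) ^ 2) = 32 := by
    rw [pow_two, mul2, m_sub, m_sub, m_sub, m_T, m_T, m_T, m_T, m_T, m_T]; norm_num
  have c1 := wskein_m1 O u (v ++ (true, q) :: z) p hp par1 hu (hvz true)
  have c2 := wskein_m1 O (u ++ (false, p) :: v) z q hq (par2 false) (hupv false) hz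
  have e1 : ∀ b', u ++ (false, p) :: v ++ (b', q) :: z = u ++ (false, p) :: (v ++ (b', q) :: z) := by
    intro b'; simp
  have e2 : u ++ (false, p) :: v ++ z = u ++ (false, p) :: (v ++ z) := by simp
  rw [e1, e1, e2, h1, h1, h3] at c2
  rw [h1, h1, h2] at c1
  rw [z0, z1, z2, h1, h1, h0] at k2
  linarith

/-- the list of a word with given signs and places -/
def lst (i : Fin n → Fin (m - 1)) (s : Fin n → Bool) : List (Bool × ℕ) := List.ofFn fun j => (s j, (i j : ℕ))

theorem lst_mem (i : Fin n → Fin (m - 1)) (s : Fin n → Bool) : ∀ x ∈ lst i s, x.2 + 1 < m := by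
  intro x hx
  unfold lst at hx
  rw [List.mem_ofFn] at hx
  obtain ⟨j, rfl⟩ := hx
  have := (i j).2
  show (i j : ℕ) + 1 < m
  omega

theorem lst_update (i : Fin n → Fin (m - 1)) (s : Fin n → Bool) (j : Fin n) (b : Bool) :
    lst i (Function.update s j b) = (lst i s).set j (b, (i j : ℕ)) := by
  unfold lst
  apply List.ext_getElem
  · simp
  · intro t h1 h2
    rw [List.getElem_ofFn, List.getElem_set, List.getElem_ofFn]
    by_cases h : (j : ℕ) = t
    · rw [if_pos h]
      have : (⟨t, by simpa using h1⟩ : Fin n) = j := Fin.ext h.symm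
      rw [this]
      simp
    · rw [if_neg h]
      have : (⟨t, by simpa using h1⟩ : Fin n) ≠ j := fun h' => h (by rw [← h'])
      rw [Function.update_of_ne this]

theorem pre_eq (i : Fin n → Fin (m - 1)) (s : Fin n → Bool) (j : ℕ) :
    pre i j = permL m ((lst i s).take j) := by
  unfold pre permL lst
  rw [List.map_take, List.map_ofFn]
  rfl

/-- the two strands which cross at the letter `j` -/
def strands (i : Fin n → Fin (m - 1)) (j : Fin n) : Sym2 (Fin m) := s(sl i j, sr i j)

theorem conj_swap (i : Fin n → Fin (m - 1)) (j : Fin n) :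
    pre i j * sw m (i j) * (pre i j)⁻¹ = Equiv.swap (sl i j) (sr i j) := by
  have hj : (i j : ℕ) + 1 < m := by have := (i j).2; omega
  unfold sl sr
  rw [Equiv.swap_apply_apply]
  congr 2
  unfold sw
  rw [dif_pos hj]

theorem conj_eq (i : Fin n → Fin (m - 1)) {j k : Fin n} (h : strands i j = strands i k) :
    pre i j * sw m (i j) * (pre i j)⁻¹ = pre i k * sw m (i k) * (pre i k)⁻¹ := by
  rw [conj_swap, conj_swap]
  unfold strands at h
  rw [Sym2.eq_iff] at h
  rcases h with ⟨h2, h3⟩ | ⟨h2, h3⟩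
  · rw [h2, h3]
  · rw [h2, h3, Equiv.swap_comm]

theorem sw_sq (i : ℕ) : sw m i * sw m i = 1 := by
  unfold sw
  split_ifs
  · exact Equiv.swap_mul_self _ _
  · exact one_mul _

theorem par_of_eq (O : Outer m) (i : Fin n → Fin (m - 1)) (j : Fin n) (h : O.up (sl i j) = O.up (sr i j)) :
    Par (O.up ∘ pre i j) (i j) := by
  have hj : (i j : ℕ) + 1 < m := by have := (i j).2; omega
  unfold Par pat
  rw [dif_pos hj, dif_pos (Nat.lt_of_succ_lt hj)]
  have h' : (O.up ∘ pre i j) ⟨i j, Nat.lt_of_succ_lt hj⟩ = (O.up ∘ pre i j) ⟨i j + 1, hj⟩ := h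
  rw [h']
  cases (O.up ∘ pre i j) ⟨i j + 1, hj⟩ <;> simp

theorem up_conj (O : Outer m) (i : Fin n → Fin (m - 1)) (j : Fin n) (h : O.up (sl i j) = O.up (sr i j)) :
    O.up ∘ (pre i j * sw m (i j) * (pre i j)⁻¹ : Equiv.Perm (Fin m)) = O.up := by
  rw [conj_swap]
  funext x
  rw [Function.comp_apply]
  by_cases h1 : x = sl i j
  · rw [h1, Equiv.swap_apply_left, h]
  · by_cases h2 : x = sr i j
    · rw [h2, Equiv.swap_apply_right, h]
    · rw [Equiv.swap_apply_of_ne_of_ne h1 h2]

theorem grp {G : Type*} [Group G] (U V Z a c : G) (ha : a * a = 1) (hc : c * c = 1)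
    (h : U * a * U⁻¹ = (U * (a * V)) * c * (U * (a * V))⁻¹) :
    U * (V * (c * Z)) = U * a * U⁻¹ * (U * (a * (V * (c * Z)))) ∧
    U * (a * (V * Z)) = U * a * U⁻¹ * (U * (a * (V * (c * Z)))) ∧
    U * V * Z = U * (a * (V * (c * Z))) := by
  have h1 : U * (V * (c * Z)) = U * a * U⁻¹ * (U * (a * (V * (c * Z)))) := by
    calc U * (V * (c * Z)) = U * (1 * (V * (c * Z))) := by rw [one_mul]
      _ = U * ((a * a) * (V * (c * Z))) := by rw [ha]
      _ = U * a * U⁻¹ * (U * (a * (V * (c * Z)))) := by group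
  have h2 : U * (a * (V * Z)) = U * a * U⁻¹ * (U * (a * (V * (c * Z)))) := by
    rw [h]
    calc U * (a * (V * Z)) = U * (a * (V * (1 * Z))) := by rw [one_mul]
      _ = U * (a * (V * ((c * c) * Z))) := by rw [hc]
      _ = (U * (a * V)) * c * (U * (a * V))⁻¹ * (U * (a * (V * (c * Z)))) := by group
  refine ⟨h1, h2, ?_⟩
  have h3 : a * (V * Z) = a * (U⁻¹ * (U * (a * (V * (c * Z))))) := by
    have := congrArg (fun x => U⁻¹ * x) h2
    simpa [mul_assoc] using this
  have h4 : V * Z = U⁻¹ * (U * (a * (V * (c * Z)))) := mul_left_cancel h3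
  rw [mul_assoc, h4]
  group

/-- the second differences for two letters which cross the same strands -/
theorem word_D2 (O : Outer m) (i : Fin n → Fin (m - 1)) (s₀ : Fin n → Bool)
    (hc : (draw O (lst i s₀)).close.IsClosed) (M M' : ℤ) {j k : Fin n} (hjk : j < k)
    (hj0 : O.up (sl i j) = O.up (sr i j)) (h : strands i j = strands i k)
    (hM : -2 * M = (-2) ^ comps O (pre i n))
    (hM' : -2 * M' = (-2) ^ comps O (pre i j * sw m (i j) * (pre i j)⁻¹ * pre i n)) (s : Fin n → Bool) :
    D k (D j (fun s => moment 2 (draw O (lst i s)).close.fPoly)) s = 160 * M + 128 * M' := by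
  have hk0 : O.up (sl i k) = O.up (sr i k) := by
    unfold strands at h
    rw [Sym2.eq_iff] at h
    rcases h with ⟨h2, h3⟩ | ⟨h2, h3⟩
    · rw [← h2, ← h3]; exact hj0
    · rw [← h2, ← h3]; exact hj0.symm
  set L := lst i s with hL
  have hlen : L.length = n := by rw [hL]; unfold lst; simp
  have hj : (i j : ℕ) + 1 < m := by have := (i j).2; omega
  have hk : (i k : ℕ) + 1 < m := by have := (i k).2; omega
  have hjk' : (j : ℕ) < k := hjk
  have hkn := k.2
  set u := L.take j with hu
  set v := (L.drop (j + 1)).take (k - (j + 1)) with hv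
  set z := L.drop (k + 1) with hz
  have e0 : ∀ b b' : Bool, lst i (Function.update (Function.update s k b') j b) =
      u ++ (b, (i j : ℕ)) :: (v ++ (b', (i k : ℕ)) :: z) := by
    intro b b'
    rw [lst_update, lst_update, ← hL]
    rw [List.set_eq_take_append_cons_drop, if_pos (by rw [List.length_set]; omega)]
    rw [List.take_set_of_le (by omega), List.drop_set, if_neg (by omega),
      List.set_eq_take_append_cons_drop, if_pos (by rw [List.length_drop]; omega)]
    rw [List.drop_drop]
    congr 4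
    congr 1
    omega
  have hperm : ∀ b b', permL m (u ++ (b, (i j : ℕ)) :: (v ++ (b', (i k : ℕ)) :: z)) = pre i n := by
    intro b b'
    rw [← e0, pre_eq i (Function.update (Function.update s k b') j b), List.take_of_length_le]
    unfold lst; simp
  have hU : permL m u = pre i j := by rw [pre_eq i s]
  have hK' : ∀ b, permL m (u ++ (b, (i j : ℕ)) :: v) = pre i k := by
    intro b
    have h1 := e0 b true
    rw [pre_eq i (Function.update (Function.update s k true) j b), h1]
    have h2 : (u ++ (b, (i j : ℕ)) :: (v ++ (true, (i k : ℕ)) :: z)).take k = u ++ (b, (i j : ℕ)) :: v := by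
      have h3 : u ++ (b, (i j : ℕ)) :: (v ++ (true, (i k : ℕ)) :: z) =
          (u ++ (b, (i j : ℕ)) :: v) ++ (true, (i k : ℕ)) :: z := by simp
      rw [h3, List.take_left']
      rw [List.length_append, List.length_cons, hu, hv, List.length_take, List.length_take,
        List.length_drop, hlen]
      omega
    rw [h2]
  have hK : permL m u * (sw m (i j) * permL m v) = pre i k := by
    rw [← hK' true, permL_append, permL_cons]
  have hc1 := conj_eq i h
  have hπ : pre i n = permL m u * (sw m (i j) * (permL m v * (sw m (i k) * permL m z))) := by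
    rw [← hperm true true, permL_append, permL_cons, permL_append, permL_cons]
  obtain ⟨g1, g2, g3⟩ := grp (permL m u) (permL m v) (permL m z) (sw m (i j)) (sw m (i k))
    (sw_sq (m := m) (i j)) (sw_sq (m := m) (i k)) (by rw [hK, hU]; exact hc1)
  rw [← hπ, hU] at g1 g2 g3
  have hg : ∀ b', permL m (u ++ (v ++ (b', (i k : ℕ)) :: z)) =
      pre i j * sw m (i j) * (pre i j)⁻¹ * pre i n := by
    intro b'
    rw [permL_append, permL_append, permL_cons, hU]
    exact g1
  have hh : ∀ b, permL m (u ++ (b, (i j : ℕ)) :: (v ++ z)) =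
      pre i j * sw m (i j) * (pre i j)⁻¹ * pre i n := by
    intro b
    rw [permL_append, permL_cons, permL_append, hU]
    exact g2
  have h00 : permL m (u ++ v ++ z) = pre i n := by
    rw [permL_append, permL_append, hU]
    exact g3
  have hmemL : ∀ x ∈ L, x.2 + 1 < m := lst_mem i s
  have huL : ∀ x ∈ u, x.2 + 1 < m := fun x hx => hmemL x (List.mem_of_mem_take hx)
  have hvL : ∀ x ∈ v, x.2 + 1 < m := fun x hx => hmemL x (List.mem_of_mem_drop (List.mem_of_mem_take hx))
  have hzL : ∀ x ∈ z, x.2 + 1 < m := fun x hx => hmemL x (List.mem_of_mem_drop hx)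
  have hn0 : permL m (lst i s₀) = pre i n := by
    rw [pre_eq i s₀, List.take_of_length_le]
    unfold lst; simp
  have hup1 : O.up ∘ (pre i j * sw m (i j) * (pre i j)⁻¹ * pre i n : Equiv.Perm (Fin m)) = O.up ∘ pre i n := by
    funext x
    have := congrFun (up_conj O i j hj0) (pre i n x)
    simpa using this
  have cl : ∀ w, (O.up ∘ permL m w = O.up ∘ pre i n) → (draw O w).close.IsClosed := fun w hw =>
    closed_of_closed O (lst i s₀) w hc (by rw [hw, hn0])
  have hm : 0 < m := by omega
  have md : ∀ (w : List (Bool × ℕ)), permL m w = pre i n → moment 0 (draw O w).close.fPoly = M := by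
    intro w hw
    have h1 := m0_draw O hm w (cl w (by rw [hw]))
    rw [hw, ← hM] at h1
    linarith
  have md' : ∀ (w : List (Bool × ℕ)), permL m w = pre i j * sw m (i j) * (pre i j)⁻¹ * pre i n →
      moment 0 (draw O w).close.fPoly = M' := by
    intro w hw
    have h1 := m0_draw O hm w (cl w (by rw [hw]; exact hup1))
    rw [hw, ← hM'] at h1
    linarith
  have key := word_diff O u v z (i j) (i k) hj hk huL hvL hzL
    (by rw [hU]; exact par_of_eq O i j hj0)
    (fun b => by rw [hK']; exact par_of_eq O i k hk0) M M'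
    (fun b b' => md _ (hperm b b')) (fun b' => md' _ (hg b')) (fun b => md' _ (hh b)) (md _ h00)
  rw [← e0, ← e0, ← e0, ← e0] at key
  exact key

theorem kappa_ne (M M' : ℤ) (a b : ℕ) (hM : -2 * M = (-2) ^ a) (hM' : -2 * M' = (-2) ^ b) :
    160 * M + 128 * M' ≠ 0 := by
  intro h
  have h1 : 5 * (-2 : ℤ) ^ a = -4 * (-2) ^ b := by
    rw [← hM, ← hM']
    linarith
  have h2 : (5 : ℤ) ∣ (-2) ^ (b + 2) := by
    refine ⟨-(-2) ^ a, ?_⟩
    rw [pow_add]
    linarith
  have h3 := Int.Prime.dvd_pow' (by norm_num : Nat.Prime 5) h2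
  omega

end Pool.Agent.K6.H17.CL
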